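import Pool.Agent.Helper28.FolReg.Use

set_option autoImplicit false

/-!
Openness of membership in homogeneous ideals and of the triangular certificate, over parameters.
-/

namespace Pool.Agent.Helper28.FolReg

open MvPolynomial

variable {k : Type} [Field k]

/-- specialisation of the parameters. -/
noncomputable def sp {r : ℕ} {σ : Type} (p : Fin r → k) :
    MvPolynomial σ (MvPolynomial (Fin r) k) →+* MvPolynomial σ k :=
  MvPolynomial.map (MvPolynomial.eval p)

theorem sp_X {r : ℕ} {σ : Type} (p : Fin r → k) (i : σ) :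
    sp p (X i : MvPolynomial σ (MvPolynomial (Fin r) k)) = X i := by
  simp [sp]

theorem sp_lift {r : ℕ} {σ : Type} (p : Fin r → k) (a : MvPolynomial σ k) :
    sp p (MvPolynomial.map (C : k →+* MvPolynomial (Fin r) k) a) = a := by
  unfold sp
  rw [map_map]
  have : (MvPolynomial.eval p).comp (C : k →+* MvPolynomial (Fin r) k) = RingHom.id k := by
    ext x; simp
  rw [this, map_id]

theorem sp_hom {r : ℕ} {σ : Type} (p : Fin r → k) {a : MvPolynomial σ (MvPolynomial (Fin r) k)}
    {n : ℕ} (h : a.IsHomogeneous n) : (sp p a).IsHomogeneous n := h.map _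

theorem coeff_sp {r : ℕ} {σ : Type} (p : Fin r → k) (a : MvPolynomial σ (MvPolynomial (Fin r) k))
    (m : σ →₀ ℕ) : (sp p a).coeff m = MvPolynomial.eval p (a.coeff m) := by
  simp [sp, coeff_map]

theorem open_mem {r : ℕ} {σ ι : Type} [Fintype σ] [DecidableEq σ] [Fintype ι]
    (F : ι → MvPolynomial σ (MvPolynomial (Fin r) k)) (d : ι → ℕ)
    (hF : ∀ i, (F i).IsHomogeneous (d i)) (K : ℕ) (p0 : Fin r → k)
    (h : ∀ u : MvPolynomial σ k, u.IsHomogeneous K →
      u ∈ Ideal.span (Set.range (fun i => sp p0 (F i)))) :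
    ∃ hh : MvPolynomial (Fin r) k, eval p0 hh ≠ 0 ∧ ∀ p : Fin r → k, eval p hh ≠ 0 →
      ∀ u : MvPolynomial σ k, u.IsHomogeneous K →
        u ∈ Ideal.span (Set.range (fun i => sp p (F i))) := by
  classical
  set L : Finset (σ →₀ ℕ) := Finset.finsuppAntidiag Finset.univ K with hL
  have hdeg : ∀ m : σ →₀ ℕ, m ∈ L ↔ m.degree = K := by
    intro m
    rw [hL, Finset.mem_finsuppAntidiag, Finsupp.degree_eq_sum]
    simp
  -- coefficients at p0
  have hch : ∀ α : L, ∃ a : ι → MvPolynomial σ k,
      (∀ i, (d i ≤ K → (a i).IsHomogeneous (K - d i)) ∧ (¬ d i ≤ K → a i = 0)) ∧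
      ∑ i, a i * sp p0 (F i) = monomial α.1 1 := by
    intro α
    have hα : (monomial α.1 (1 : k)).IsHomogeneous K :=
      isHomogeneous_monomial _ ((hdeg α.1).mp α.2)
    obtain ⟨a, ha⟩ := Ideal.mem_span_range_iff_exists_fun.mp (h _ hα)
    refine ⟨fun i => if d i ≤ K then homogeneousComponent (K - d i) (a i) else 0,
      fun i => ⟨fun hi => ?_, fun hi => ?_⟩, ?_⟩
    · simp only [if_pos hi]; exact homogeneousComponent_isHomogeneous _ _
    · simp only [if_neg hi]
    · have hK : homogeneousComponent K (∑ i, a i * sp p0 (F i)) = monomial α.1 1 := by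
        rw [ha, homogeneousComponent_of_mem hα, if_pos rfl]
      rw [← hK, map_sum]
      apply Finset.sum_congr rfl
      intro i _
      have hsum : a i = ∑ j ∈ Finset.range ((a i).totalDegree + 1), homogeneousComponent j (a i) :=
        (sum_homogeneousComponent (a i)).symm
      conv_rhs => rw [hsum, Finset.sum_mul, map_sum]
      have hterm : ∀ j, homogeneousComponent K (homogeneousComponent j (a i) * sp p0 (F i))
          = if K = j + d i then homogeneousComponent j (a i) * sp p0 (F i) else 0 := by
        intro j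
        rw [homogeneousComponent_of_mem
          ((homogeneousComponent_isHomogeneous j (a i)).mul (sp_hom p0 (hF i)))]
      simp only [hterm]
      by_cases hi : d i ≤ K
      · rw [if_pos hi]
        by_cases hr : K - d i < (a i).totalDegree + 1
        · rw [Finset.sum_eq_single (K - d i)]
          · rw [if_pos (by omega)]
          · intro j _ hj
            rw [if_neg (by omega)]
          · intro hj
            exact absurd (Finset.mem_range.mpr hr) hj
        · rw [homogeneousComponent_eq_zero (K - d i) (a i) (by omega), zero_mul]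
          symm
          apply Finset.sum_eq_zero
          intro j hj
          rw [Finset.mem_range] at hj
          rw [if_neg (by omega)]
      · rw [if_neg hi, zero_mul]
        symm
        apply Finset.sum_eq_zero
        intro j _
        rw [if_neg (by omega)]
  choose a haH haS using hch
  set G : Matrix L L (MvPolynomial (Fin r) k) := fun α β =>
    (∑ i, MvPolynomial.map (C : k →+* MvPolynomial (Fin r) k) (a α i) * F i).coeff β.1 with hG
  have hGp : ∀ p : Fin r → k, ∀ α β : L,
      eval p (G α β) = (∑ i, a α i * sp p (F i)).coeff β.1 := by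
    intro p α β
    rw [hG]
    dsimp only
    rw [← coeff_sp, map_sum]
    congr 1
    apply Finset.sum_congr rfl
    intro i _
    rw [map_mul, sp_lift]
  refine ⟨G.det, ?_, ?_⟩
  · have : eval p0 G.det = 1 := by
      rw [RingHom.map_det]
      have h1 : (MvPolynomial.eval p0).mapMatrix G = 1 := by
        ext α β
        rw [RingHom.mapMatrix_apply, Matrix.map_apply, hGp, haS, coeff_monomial, Matrix.one_apply]
        simp only [Subtype.ext_iff]
      rw [h1, Matrix.det_one]
    rw [this]
    exact one_ne_zero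
  · intro p hp u hu
    set Gp : Matrix L L k := (MvPolynomial.eval p).mapMatrix G with hGpd
    have hdet : Gp.det ≠ 0 := by
      rw [hGpd, ← RingHom.map_det]; exact hp
    have hunit : IsUnit Gp.det := isUnit_iff_ne_zero.mpr hdet
    have hcoef : ∀ α β : L, Gp α β = (∑ i, a α i * sp p (F i)).coeff β.1 := by
      intro α β
      rw [hGpd, RingHom.mapMatrix_apply, Matrix.map_apply, hGp]
    set g : L → MvPolynomial σ k := fun α => ∑ i, a α i * sp p (F i) with hg
    have hgH : ∀ α, (g α).IsHomogeneous K := by
      intro α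
      rw [hg]
      dsimp only
      apply IsHomogeneous.sum
      intro i _
      by_cases hi : d i ≤ K
      · have := ((haH α i).1 hi).mul (sp_hom p (hF i))
        rwa [Nat.sub_add_cancel hi] at this
      · rw [(haH α i).2 hi, zero_mul]
        exact isHomogeneous_zero _ _ _
    have expand : ∀ v : MvPolynomial σ k, v.IsHomogeneous K →
        v = ∑ β : L, C (v.coeff β.1) * monomial β.1 1 := by
      intro v hv
      ext m
      rw [coeff_sum]
      by_cases hm : m ∈ L
      · rw [Finset.sum_eq_single ⟨m, hm⟩]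
        · rw [coeff_C_mul, coeff_monomial, if_pos rfl, mul_one]
        · intro β _ hβ
          rw [coeff_C_mul, coeff_monomial, if_neg, mul_zero]
          intro hh
          apply hβ
          exact Subtype.ext hh
        · intro hh; exact absurd (Finset.mem_univ _) hh
      · have h0 : v.coeff m = 0 := by
          by_contra hne
          exact hm ((hdeg m).mpr (by
            have := hv hne
            rw [← this, Finsupp.degree_eq_weight_one]; rfl))
        rw [h0]
        symm
        apply Finset.sum_eq_zero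
        intro β _
        rw [coeff_C_mul, coeff_monomial, if_neg, mul_zero]
        intro hh
        exact hm (hh ▸ β.2)
    have hgmem : ∀ α, g α ∈ Ideal.span (Set.range (fun i => sp p (F i))) := by
      intro α
      rw [hg]
      exact Ideal.sum_mem _ (fun i _ => Ideal.mul_mem_left _ _ (Ideal.subset_span ⟨i, rfl⟩))
    have hmono : ∀ γ : L, monomial γ.1 (1 : k) ∈ Ideal.span (Set.range (fun i => sp p (F i))) := by
      intro γ
      have h1 : monomial γ.1 (1 : k) = ∑ α : L, C (Gp⁻¹ γ α) * g α := by
        have h2 : ∑ α : L, C (Gp⁻¹ γ α) * g α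
            = ∑ β : L, C ((Gp⁻¹ * Gp) γ β) * monomial β.1 (1 : k) := by
          calc ∑ α : L, C (Gp⁻¹ γ α) * g α
              = ∑ α : L, ∑ β : L, C (Gp⁻¹ γ α * Gp α β) * monomial β.1 (1 : k) := by
                apply Finset.sum_congr rfl
                intro α _
                conv_lhs => rw [expand (g α) (hgH α), Finset.mul_sum]
                apply Finset.sum_congr rfl
                intro β _
                rw [hcoef, C_mul, mul_assoc]
            _ = ∑ β : L, ∑ α : L, C (Gp⁻¹ γ α * Gp α β) * monomial β.1 (1 : k) :=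
                Finset.sum_comm
            _ = _ := by
                apply Finset.sum_congr rfl
                intro β _
                rw [Matrix.mul_apply, map_sum, Finset.sum_mul]
        rw [h2, Matrix.nonsing_inv_mul _ hunit, Finset.sum_eq_single γ]
        · rw [Matrix.one_apply_eq, C_1, one_mul]
        · intro β _ hβ
          rw [Matrix.one_apply_ne (Ne.symm hβ), C_0, zero_mul]
        · intro hh; exact absurd (Finset.mem_univ _) hh
      rw [h1]
      exact Ideal.sum_mem _ (fun α _ => Ideal.mul_mem_left _ _ (hgmem α))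
    rw [expand u hu]
    exact Ideal.sum_mem _ (fun β _ => Ideal.mul_mem_left _ _ (hmono β))

theorem hom_mem_of_radical {σ : Type} [Fintype σ] {I : Ideal (MvPolynomial σ k)}
    (h : ∀ i, (X i : MvPolynomial σ k) ∈ I.radical) :
    ∃ K, ∀ u : MvPolynomial σ k, u.IsHomogeneous K → u ∈ I := by
  classical
  have h1 : Ideal.span (Set.range (X : σ → MvPolynomial σ k)) ≤ I.radical := by
    rw [Ideal.span_le]
    rintro _ ⟨i, rfl⟩
    exact h i
  obtain ⟨K, hK⟩ := Ideal.exists_pow_le_of_le_radical_of_fg h1
    ⟨Finset.univ.image (X : σ → MvPolynomial σ k), by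
      rw [Finset.coe_image, Finset.coe_univ, Set.image_univ]⟩
  refine ⟨K, fun u hu => ?_⟩
  apply hK
  rw [u.as_sum]
  refine Ideal.sum_mem _ (fun m hm => ?_)
  have hmd : m.degree = K := by
    have := hu (mem_support_iff.mp hm)
    rw [← this, Finsupp.degree_eq_weight_one]
    rfl
  rw [monomial_eq]
  apply Ideal.mul_mem_left
  have h2 : (m.prod fun n e => (X n : MvPolynomial σ k) ^ e) ∈
      Ideal.span (Set.range (X : σ → MvPolynomial σ k)) ^ (m.sum fun _ e => e) := by
    unfold Finsupp.prod Finsupp.sum
    rw [← Finset.prod_pow_eq_pow_sum]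
    apply Ideal.prod_mem_prod
    intro i _
    exact Ideal.pow_mem_pow (Ideal.subset_span (Set.mem_range_self i)) _
  have h3 : (m.sum fun _ e => e) = K := by
    rw [← hmd]; rfl
  rwa [h3] at h2

/-- the triangular certificate is open in the parameters. -/
theorem Cert.exists_open {r N : ℕ} (F : Fin N → MvPolynomial (Fin N) (MvPolynomial (Fin r) k))
    (hF : ∀ i, ∃ d, (F i).IsHomogeneous d) (p0 : Fin r → k) (h : Cert (fun i => sp p0 (F i))) :
    ∃ hh : MvPolynomial (Fin r) k, eval p0 hh ≠ 0 ∧ ∀ p : Fin r → k, eval p hh ≠ 0 →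
      Cert (fun i => sp p (F i)) := by
  classical
  choose d hd using hF
  have hj : ∀ j : Fin N, ∃ hh : MvPolynomial (Fin r) k, eval p0 hh ≠ 0 ∧
      ∀ p : Fin r → k, eval p hh ≠ 0 → (X j : MvPolynomial (Fin N) k) ∈
      (Ideal.span ((fun i => sp p (F i)) '' {i | i ≤ j}) ⊔
        Ideal.span (X '' {i | j < i})).radical := by
    intro j
    set Fj : Fin N → MvPolynomial (Fin N) (MvPolynomial (Fin r) k) :=
      fun i => if i ≤ j then F i else X i with hFj
    have hspan : ∀ p : Fin r → k, Ideal.span (Set.range (fun i => sp p (Fj i))) =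
        Ideal.span ((fun i => sp p (F i)) '' {i | i ≤ j}) ⊔
        Ideal.span ((X : Fin N → MvPolynomial (Fin N) k) '' {i | j < i}) := by
      intro p
      rw [← Ideal.span_union]
      congr 1
      ext y
      simp only [Set.mem_range, Set.mem_union, Set.mem_image, Set.mem_ofPred_eq, hFj]
      constructor
      · rintro ⟨i, rfl⟩
        by_cases hi : i ≤ j
        · left; exact ⟨i, hi, by rw [if_pos hi]⟩
        · right; exact ⟨i, not_le.mp hi, by rw [if_neg hi, sp_X]⟩
      · rintro (⟨i, hi, rfl⟩ | ⟨i, hi, rfl⟩)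
        · exact ⟨i, by rw [if_pos hi]⟩
        · exact ⟨i, by rw [if_neg (not_le.mpr hi), sp_X]⟩
    have hall : ∀ i : Fin N, (X i : MvPolynomial (Fin N) k) ∈
        (Ideal.span (Set.range (fun i => sp p0 (Fj i)))).radical := by
      intro i
      rw [hspan]
      by_cases hi : i ≤ j
      · exact h.mem_radical j i hi
      · exact Ideal.le_radical (Ideal.mem_sup_right (Ideal.subset_span ⟨i, not_le.mp hi, rfl⟩))
    obtain ⟨K, hK⟩ := hom_mem_of_radical hall
    obtain ⟨hh, h0, hp⟩ := open_mem Fj (fun i => if i ≤ j then d i else 1) (by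
      intro i
      by_cases hi : i ≤ j
      · simp only [hFj, if_pos hi]; exact hd i
      · simp only [hFj, if_neg hi]; exact isHomogeneous_X _ _) K p0 hK
    refine ⟨hh, h0, fun p hpp => ?_⟩
    rw [← hspan p]
    refine ⟨K, hp p hpp _ ?_⟩
    have := (isHomogeneous_X k j).pow K
    simpa using this
  choose hh h0 hp using hj
  refine ⟨∏ j, hh j, ?_, ?_⟩
  · rw [map_prod]
    exact Finset.prod_ne_zero_iff.mpr (fun j _ => h0 j)
  · intro p hpp j
    apply hp j p
    rw [map_prod] at hpp
    exact Finset.prod_ne_zero_iff.mp hpp j (Finset.mem_univ _)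

/-- all regular sequences at once, on a non empty open set of parameters. -/
theorem exists_open_reg4 {r N : ℕ} (F : Fin N → MvPolynomial (Fin N) (MvPolynomial (Fin r) k))
    (hF : ∀ i, ∃ d, 0 < d ∧ (F i).IsHomogeneous d) (p0 : Fin r → k)
    (h : Cert (fun i => sp p0 (F i))) :
    ∃ hh : MvPolynomial (Fin r) k, eval p0 hh ≠ 0 ∧ ∀ p : Fin r → k, eval p hh ≠ 0 →
      Cert (fun i => sp p (F i)) ∧ ∀ i0 i1 i2 i3 : Fin N, [i0, i1, i2, i3].Nodup →
        ∀ e0 e1 e2 e3 : ℕ, 0 < e0 → 0 < e1 → 0 < e2 → 0 < e3 →
        Pool.Agent.Helper71.FL.Reg4 (sp p (F i0) ^ e0) (sp p (F i1) ^ e1) (sp p (F i2) ^ e2)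
          (sp p (F i3) ^ e3) := by
  obtain ⟨hh, h0, hp⟩ := Cert.exists_open F (fun i => ⟨_, (hF i).choose_spec.2⟩) p0 h
  refine ⟨hh, h0, fun p hpp => ⟨hp p hpp, ?_⟩⟩
  intro i0 i1 i2 i3 hnd e0 e1 e2 e3 h0 h1 h2 h3
  exact (hp p hpp).reg4 (fun i => ⟨_, (hF i).choose_spec.1, sp_hom p (hF i).choose_spec.2⟩)
    hnd h0 h1 h2 h3

end Pool.Agent.Helper28.FolReg
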