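import Pool.Agent.Helper28.FolReg.Reg
import Pool.Agent.Helper71.FL.Cech

set_option autoImplicit false

/-!
Plain consequences of `regSeq_of_cert`: `Reg2`, `Reg3`, `Reg4` for all choices of members, in every
order, with arbitrary powers, and Koszul syzygies.
-/

namespace Pool.Agent.Helper28.FolReg

open MvPolynomial
open Pool.Agent.Helper71.FL (Reg4)

/-- regular sequence of length 2. -/
def Reg2 {S : Type} [CommRing S] (g0 g1 : S) : Prop :=
  (∀ a, g0 * a = 0 → a = 0) ∧ (∀ a, (∃ u, g1 * a = g0 * u) → ∃ u, a = g0 * u)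

/-- regular sequence of length 3. -/
def Reg3 {S : Type} [CommRing S] (g0 g1 g2 : S) : Prop :=
  (∀ a, g0 * a = 0 → a = 0) ∧ (∀ a, (∃ u, g1 * a = g0 * u) → ∃ u, a = g0 * u) ∧
  (∀ a, (∃ u v, g2 * a = g0 * u + g1 * v) → ∃ u v, a = g0 * u + g1 * v)

section Gen
variable {S : Type} [CommRing S]

theorem reg3_of_reg4 {g0 g1 g2 g3 : S} (h : Reg4 g0 g1 g2 g3) : Reg3 g0 g1 g2 :=
  ⟨h.1, h.2.1, h.2.2.1⟩

theorem reg2_of_reg3 {g0 g1 g2 : S} (h : Reg3 g0 g1 g2) : Reg2 g0 g1 := ⟨h.1, h.2.1⟩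

/-- Koszul syzygies of two elements. -/
theorem Reg2.syz {g0 g1 : S} (h : Reg2 g0 g1) {a b : S} (hab : g0 * a + g1 * b = 0) :
    ∃ c, a = g1 * c ∧ b = -(g0 * c) := by
  obtain ⟨u, hu⟩ := h.2 b ⟨-a, by linear_combination hab⟩
  refine ⟨-u, ?_, by rw [hu]; ring⟩
  have : g0 * (a + g1 * u) = 0 := by rw [hu] at hab; linear_combination hab
  have := h.1 _ this
  linear_combination this

/-- Koszul syzygies of three elements. -/
theorem Reg3.syz {g0 g1 g2 : S} (h : Reg3 g0 g1 g2) {a0 a1 a2 : S}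
    (ha : g0 * a0 + g1 * a1 + g2 * a2 = 0) :
    ∃ c01 c02 c12, a0 = g1 * c01 + g2 * c02 ∧ a1 = -(g0 * c01) + g2 * c12 ∧
      a2 = -(g0 * c02) - g1 * c12 := by
  obtain ⟨u, v, huv⟩ := h.2.2 a2 ⟨-a0, -a1, by linear_combination ha⟩
  have h1 : g0 * (a0 + g2 * u) + g1 * (a1 + g2 * v) = 0 := by
    rw [huv] at ha; linear_combination ha
  obtain ⟨c, hc0, hc1⟩ := (reg2_of_reg3 h).syz h1
  exact ⟨c, -u, -v, by linear_combination hc0, by linear_combination hc1, by rw [huv]; ring⟩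

/-- second Koszul syzygies of three elements. -/
theorem Reg3.syz2 {g0 g1 g2 : S} (h : Reg3 g0 g1 g2) {c01 c02 c12 : S}
    (h0 : g1 * c01 + g2 * c02 = 0) (h1 : -(g0 * c01) + g2 * c12 = 0)
    (h2 : g0 * c02 + g1 * c12 = 0) :
    ∃ t, c01 = g2 * t ∧ c02 = -(g1 * t) ∧ c12 = g0 * t := by
  obtain ⟨t, ht0, ht1⟩ := (reg2_of_reg3 h).syz h2
  refine ⟨-t, ?_, by rw [ht0]; ring, by rw [ht1]; ring⟩
  have : g0 * (c01 + g2 * t) = 0 := by
    rw [ht1] at h1; linear_combination -h1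
  have := h.1 _ this
  linear_combination this

/-- Koszul syzygies of four elements. -/
theorem syz4 {g0 g1 g2 g3 : S} (h : Reg4 g0 g1 g2 g3) {a0 a1 a2 a3 : S}
    (ha : g0 * a0 + g1 * a1 + g2 * a2 + g3 * a3 = 0) :
    ∃ c01 c02 c03 c12 c13 c23, a0 = g1 * c01 + g2 * c02 + g3 * c03 ∧
      a1 = -(g0 * c01) + g2 * c12 + g3 * c13 ∧
      a2 = -(g0 * c02) - g1 * c12 + g3 * c23 ∧ a3 = -(g0 * c03) - g1 * c13 - g2 * c23 := by
  obtain ⟨u, v, w, huvw⟩ := h.2.2.2 a3 ⟨-a0, -a1, -a2, by linear_combination ha⟩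
  have h1 : g0 * (a0 + g3 * u) + g1 * (a1 + g3 * v) + g2 * (a2 + g3 * w) = 0 := by
    rw [huvw] at ha; linear_combination ha
  obtain ⟨c01, c02, c12, e0, e1, e2⟩ := (reg3_of_reg4 h).syz h1
  exact ⟨c01, c02, -u, c12, -v, -w, by linear_combination e0, by linear_combination e1,
    by linear_combination e2, by rw [huvw]; ring⟩

/-- divisibility by `g0` and `g1`. -/
theorem Reg2.dvd_mul {g0 g1 : S} (h : Reg2 g0 g1) {a b : S} (hab : g1 * a = g0 * b) :
    ∃ c, a = g0 * c ∧ b = g1 * c := by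
  obtain ⟨u, hu⟩ := h.2 a ⟨b, hab⟩
  refine ⟨u, hu, ?_⟩
  have : g0 * (b - g1 * u) = 0 := by rw [hu] at hab; linear_combination -hab
  have := h.1 _ this
  linear_combination this

theorem mem_bot_sup_span1 {g0 a : S} : a ∈ (⊥ : Ideal S) ⊔ Ideal.span {g0} ↔ ∃ u, a = g0 * u := by
  rw [bot_sup_eq, Ideal.mem_span_singleton]
  exact Iff.rfl

theorem mem_bot_sup_span2 {g0 g1 a : S} :
    a ∈ (⊥ : Ideal S) ⊔ Ideal.span {g0} ⊔ Ideal.span {g1} ↔ ∃ u v, a = g0 * u + g1 * v := by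
  constructor
  · intro h
    obtain ⟨x, hx, y, hy, rfl⟩ := Submodule.mem_sup.mp h
    obtain ⟨u, rfl⟩ := mem_bot_sup_span1.mp hx
    obtain ⟨v, rfl⟩ := Ideal.mem_span_singleton.mp hy
    exact ⟨u, v, rfl⟩
  · rintro ⟨u, v, rfl⟩
    exact Ideal.add_mem _ (Ideal.mem_sup_left (mem_bot_sup_span1.mpr ⟨u, rfl⟩))
      (Ideal.mem_sup_right (Ideal.mem_span_singleton.mpr ⟨v, rfl⟩))

theorem mem_bot_sup_span3 {g0 g1 g2 a : S} :
    a ∈ (⊥ : Ideal S) ⊔ Ideal.span {g0} ⊔ Ideal.span {g1} ⊔ Ideal.span {g2} ↔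
      ∃ u v w, a = g0 * u + g1 * v + g2 * w := by
  constructor
  · intro h
    obtain ⟨x, hx, y, hy, rfl⟩ := Submodule.mem_sup.mp h
    obtain ⟨u, v, rfl⟩ := mem_bot_sup_span2.mp hx
    obtain ⟨w, rfl⟩ := Ideal.mem_span_singleton.mp hy
    exact ⟨u, v, w, rfl⟩
  · rintro ⟨u, v, w, rfl⟩
    exact Ideal.add_mem _ (Ideal.mem_sup_left (mem_bot_sup_span2.mpr ⟨u, v, rfl⟩))
      (Ideal.mem_sup_right (Ideal.mem_span_singleton.mpr ⟨w, rfl⟩))

theorem reg4_of_regSeq {g0 g1 g2 g3 : S} (h : RegSeq (⊥ : Ideal S) [g0, g1, g2, g3]) :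
    Reg4 g0 g1 g2 g3 := by
  obtain ⟨h0, h1, h2, h3, _⟩ := h
  refine ⟨fun a ha => ?_, fun a ha => ?_, fun a ha => ?_, fun a ha => ?_⟩
  · exact (Ideal.mem_bot.mp (h0 a (Ideal.mem_bot.mpr ha)))
  · exact mem_bot_sup_span1.mp (h1 a (mem_bot_sup_span1.mpr ha))
  · exact mem_bot_sup_span2.mp (h2 a (mem_bot_sup_span2.mpr ha))
  · exact mem_bot_sup_span3.mp (h3 a (mem_bot_sup_span3.mpr ha))

theorem reg3_of_regSeq {g0 g1 g2 : S} (h : RegSeq (⊥ : Ideal S) [g0, g1, g2]) :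
    Reg3 g0 g1 g2 := by
  obtain ⟨h0, h1, h2, _⟩ := h
  refine ⟨fun a ha => ?_, fun a ha => ?_, fun a ha => ?_⟩
  · exact (Ideal.mem_bot.mp (h0 a (Ideal.mem_bot.mpr ha)))
  · exact mem_bot_sup_span1.mp (h1 a (mem_bot_sup_span1.mpr ha))
  · exact mem_bot_sup_span2.mp (h2 a (mem_bot_sup_span2.mpr ha))

theorem reg2_of_regSeq {g0 g1 : S} (h : RegSeq (⊥ : Ideal S) [g0, g1]) : Reg2 g0 g1 := by
  obtain ⟨h0, h1, _⟩ := h
  refine ⟨fun a ha => ?_, fun a ha => ?_⟩
  · exact (Ideal.mem_bot.mp (h0 a (Ideal.mem_bot.mpr ha)))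
  · exact mem_bot_sup_span1.mp (h1 a (mem_bot_sup_span1.mpr ha))

end Gen

section Cert

variable {k : Type} [CommRing k] {N : ℕ}

/-- the triangular certificate. -/
def Cert (f : Fin N → MvPolynomial (Fin N) k) : Prop :=
  ∀ j : Fin N, (X j : MvPolynomial (Fin N) k) ∈
      (Ideal.span (f '' {i | i ≤ j}) ⊔ Ideal.span (X '' {i | j < i})).radical

theorem PH.pow {f : MvPolynomial (Fin N) k} (h : PH f) {e : ℕ} (he : 0 < e) : PH (f ^ e) := by
  obtain ⟨d, hd, hf⟩ := h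
  exact ⟨d * e, Nat.mul_pos hd he, hf.pow e⟩

theorem Cert.pow {f : Fin N → MvPolynomial (Fin N) k} (h : Cert f) (e : Fin N → ℕ) :
    Cert (fun i => f i ^ e i) := by
  intro j
  have h1 := h j
  have hle : (Ideal.span (f '' {i | i ≤ j}) ⊔ Ideal.span (X '' {i | j < i})) ≤
      (Ideal.span ((fun i => f i ^ e i) '' {i | i ≤ j}) ⊔
        Ideal.span (X '' {i : Fin N | j < i}) : Ideal (MvPolynomial (Fin N) k)).radical := by
    refine sup_le ?_ ?_
    · rw [Ideal.span_le]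
      rintro _ ⟨i, hi, rfl⟩
      exact ⟨e i, Ideal.mem_sup_left (Ideal.subset_span ⟨i, hi, rfl⟩)⟩
    · rw [Ideal.span_le]
      rintro _ ⟨i, hi, rfl⟩
      exact Ideal.le_radical (Ideal.mem_sup_right (Ideal.subset_span ⟨i, hi, rfl⟩))
  have h2 := Ideal.radical_mono hle h1
  rwa [Ideal.radical_idem] at h2

/-- every selection, in every order, is a regular sequence. -/
theorem Cert.regSeq {f : Fin N → MvPolynomial (Fin N) k} (h : Cert f) (hf : ∀ i, PH (f i))
    (s : List (Fin N)) (hs : s.Nodup) : RegSeq ⊥ (s.map f) := by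
  have h0 := regSeq_of_cert f hf h
  have h1 : s.Subperm (List.finRange N) :=
    hs.subperm (fun i _ => List.mem_finRange i)
  obtain ⟨t, hts, htsub⟩ := h1
  obtain ⟨r, hr⟩ := htsub.exists_perm_append
  have h2 : (List.finRange N).Perm (s ++ r) := hr.trans (hts.append_right r)
  have h3 : (List.ofFn f).Perm (s.map f ++ r.map f) := by
    rw [List.ofFn_eq_map, ← List.map_append]
    exact h2.map f
  have h4 := RegSeq.perm h3 ⊥ HomI.bot (by
    intro g hg
    rw [List.mem_ofFn] at hg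
    obtain ⟨i, rfl⟩ := hg
    exact hf i) h0
  rw [RegSeq_append] at h4
  exact h4.1

theorem Cert.reg4 {f : Fin N → MvPolynomial (Fin N) k} (h : Cert f) (hf : ∀ i, PH (f i))
    {i0 i1 i2 i3 : Fin N} (hnd : [i0, i1, i2, i3].Nodup) {e0 e1 e2 e3 : ℕ} (h0 : 0 < e0)
    (h1 : 0 < e1) (h2 : 0 < e2) (h3 : 0 < e3) :
    Reg4 (f i0 ^ e0) (f i1 ^ e1) (f i2 ^ e2) (f i3 ^ e3) := by
  classical
  set e : Fin N → ℕ := fun i => if i = i0 then e0 else if i = i1 then e1 else
    if i = i2 then e2 else if i = i3 then e3 else 1 with he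
  have hpos : ∀ i, 0 < e i := by
    intro i
    rw [he]
    dsimp only
    split_ifs <;> first | assumption | exact Nat.one_pos
  have hr := (h.pow e).regSeq (fun i => (hf i).pow (hpos i)) _ hnd
  have hn := hnd
  simp only [List.nodup_cons, List.mem_cons, List.not_mem_nil, or_false, not_or] at hn
  obtain ⟨⟨h01, h02, h03⟩, ⟨h12, h13⟩, h23, _⟩ := hn
  have E0 : e i0 = e0 := by simp [he]
  have E1 : e i1 = e1 := by simp [he, Ne.symm h01]
  have E2 : e i2 = e2 := by simp [he, Ne.symm h02, Ne.symm h12]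
  have E3 : e i3 = e3 := by simp [he, Ne.symm h03, Ne.symm h13, Ne.symm h23]
  simp only [List.map_cons, List.map_nil, E0, E1, E2, E3] at hr
  exact reg4_of_regSeq hr

theorem Cert.reg3 {f : Fin N → MvPolynomial (Fin N) k} (h : Cert f) (hf : ∀ i, PH (f i))
    {i0 i1 i2 : Fin N} (hnd : [i0, i1, i2].Nodup) {e0 e1 e2 : ℕ} (h0 : 0 < e0)
    (h1 : 0 < e1) (h2 : 0 < e2) :
    Reg3 (f i0 ^ e0) (f i1 ^ e1) (f i2 ^ e2) := by
  classical
  set e : Fin N → ℕ := fun i => if i = i0 then e0 else if i = i1 then e1 else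
    if i = i2 then e2 else 1 with he
  have hpos : ∀ i, 0 < e i := by
    intro i
    rw [he]
    dsimp only
    split_ifs <;> first | assumption | exact Nat.one_pos
  have hr := (h.pow e).regSeq (fun i => (hf i).pow (hpos i)) _ hnd
  have hn := hnd
  simp only [List.nodup_cons, List.mem_cons, List.not_mem_nil, or_false, not_or] at hn
  obtain ⟨⟨h01, h02⟩, h12, _⟩ := hn
  have E0 : e i0 = e0 := by simp [he]
  have E1 : e i1 = e1 := by simp [he, Ne.symm h01]
  have E2 : e i2 = e2 := by simp [he, Ne.symm h02, Ne.symm h12]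
  simp only [List.map_cons, List.map_nil, E0, E1, E2] at hr
  exact reg3_of_regSeq hr

theorem Cert.reg2 {f : Fin N → MvPolynomial (Fin N) k} (h : Cert f) (hf : ∀ i, PH (f i))
    {i0 i1 : Fin N} (hne : i0 ≠ i1) {e0 e1 : ℕ} (h0 : 0 < e0) (h1 : 0 < e1) :
    Reg2 (f i0 ^ e0) (f i1 ^ e1) := by
  classical
  set e : Fin N → ℕ := fun i => if i = i0 then e0 else if i = i1 then e1 else 1 with he
  have hpos : ∀ i, 0 < e i := by
    intro i
    rw [he]
    dsimp only
    split_ifs <;> first | assumption | exact Nat.one_pos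
  have hr := (h.pow e).regSeq (fun i => (hf i).pow (hpos i)) [i0, i1] (by simp [hne])
  have E0 : e i0 = e0 := by simp [he]
  have E1 : e i1 = e1 := by simp [he, Ne.symm hne]
  simp only [List.map_cons, List.map_nil, E0, E1] at hr
  exact reg2_of_regSeq hr

/-- the triangular certificate gives the full radical statement. -/
theorem Cert.mem_radical {f : Fin N → MvPolynomial (Fin N) k} (h : Cert f) (j : Fin N) :
    ∀ i : Fin N, i ≤ j → (X i : MvPolynomial (Fin N) k) ∈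
      (Ideal.span (f '' {i | i ≤ j}) ⊔ Ideal.span (X '' {i | j < i})).radical := by
  have key : ∀ m : ℕ, ∀ i : Fin N, i.1 + m = j.1 → (X i : MvPolynomial (Fin N) k) ∈
      (Ideal.span (f '' {i | i ≤ j}) ⊔ Ideal.span (X '' {i | j < i})).radical := by
    intro m
    induction m using Nat.strong_induction_on with
    | _ m ih =>
      intro i hi
      have hle : (Ideal.span (f '' {l | l ≤ i}) ⊔ Ideal.span (X '' {l | i < l})) ≤
          (Ideal.span (f '' {i | i ≤ j}) ⊔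
            Ideal.span (X '' {i : Fin N | j < i}) : Ideal (MvPolynomial (Fin N) k)).radical := by
        refine sup_le ?_ ?_
        · rw [Ideal.span_le]
          rintro _ ⟨l, hl, rfl⟩
          have hl' : l.1 ≤ i.1 := hl
          exact Ideal.le_radical (Ideal.mem_sup_left (Ideal.subset_span
            ⟨l, (Fin.le_def.mpr (by omega) : l ≤ j), rfl⟩))
        · rw [Ideal.span_le]
          rintro _ ⟨l, hl, rfl⟩
          have hl' : i.1 < l.1 := hl
          by_cases hlj : l.1 ≤ j.1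
          · exact ih (j.1 - l.1) (by omega) l (by omega)
          · exact Ideal.le_radical (Ideal.mem_sup_right (Ideal.subset_span
              ⟨l, (Fin.lt_def.mpr (by omega) : j < l), rfl⟩))
      have h2 := Ideal.radical_mono hle (h i)
      rwa [Ideal.radical_idem] at h2
  intro i hi
  have hi' : i.1 ≤ j.1 := hi
  exact key (j.1 - i.1) i (by omega)

end Cert

end Pool.Agent.Helper28.FolReg
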