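import Pool.Agent.Helper28.FolReg.Pa
import Pool.Agent.Helper71.FC.CLof

set_option autoImplicit false

/-!
The families R(1,4) and R(2,3) lie in the closure of the forms with good restriction.
-/

namespace Pool.Agent.Helper28.FolReg

open MvPolynomial
open Pool.Agent.Helper71.FL (dd at0)
open Pool.Agent.Helper71.FC (ClGood Fam14 Fam23)
open Pool.Agent.Helper93 (OF IntS FolS)

section cert
variable {k : Type} [Field k] {N : ℕ}

theorem cert_step {f : Fin N → MvPolynomial (Fin N) k} {j : Fin N} {c : k} (hc : c ≠ 0) (e : ℕ)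
    (h : C c * X j ^ e - f j ∈ Ideal.span (f '' {i | i < j}) ⊔ Ideal.span (X '' {i | j < i})) :
    (X j : MvPolynomial (Fin N) k) ∈
      (Ideal.span (f '' {i | i ≤ j}) ⊔ Ideal.span (X '' {i | j < i})).radical := by
  refine ⟨e, ?_⟩
  have hle : Ideal.span (f '' {i | i < j}) ⊔ Ideal.span (X '' {i | j < i}) ≤
      (Ideal.span (f '' {i | i ≤ j}) ⊔ Ideal.span (X '' {i | j < i}) :
        Ideal (MvPolynomial (Fin N) k)) := by
    apply sup_le_sup_right
    apply Ideal.span_mono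
    apply Set.image_mono
    intro i hi
    exact le_of_lt (show i < j from hi)
  have h1 := hle h
  have h2 : f j ∈ (Ideal.span (f '' {i | i ≤ j}) ⊔ Ideal.span (X '' {i | j < i}) :
        Ideal (MvPolynomial (Fin N) k)) :=
    Ideal.mem_sup_left (Ideal.subset_span ⟨j, le_refl j, rfl⟩)
  have h3 := Ideal.add_mem _ h1 h2
  rw [sub_add_cancel] at h3
  have h4 := Ideal.mul_mem_left _ (C c⁻¹) h3
  rwa [← mul_assoc, ← C_mul, inv_mul_cancel₀ hc, C_1, one_mul] at h4

theorem mem_left {f : Fin N → MvPolynomial (Fin N) k} {j i : Fin N} (h : i ≤ j)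
    (a : MvPolynomial (Fin N) k) :
    a * f i ∈ Ideal.span (f '' {i | i ≤ j}) ⊔ Ideal.span (X '' {i | j < i}) :=
  Ideal.mem_sup_left (Ideal.mul_mem_left _ _ (Ideal.subset_span ⟨i, h, rfl⟩))

theorem mem_left' {f : Fin N → MvPolynomial (Fin N) k} {j i : Fin N} (h : i < j)
    (a : MvPolynomial (Fin N) k) :
    a * f i ∈ Ideal.span (f '' {i | i < j}) ⊔ Ideal.span (X '' {i | j < i}) :=
  Ideal.mem_sup_left (Ideal.mul_mem_left _ _ (Ideal.subset_span ⟨i, h, rfl⟩))

theorem mem_right (I : Ideal (MvPolynomial (Fin N) k)) {j i : Fin N} (h : j < i)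
    (a : MvPolynomial (Fin N) k) :
    a * X i ∈ I ⊔ Ideal.span (X '' {i | j < i}) :=
  Ideal.mem_sup_right (Ideal.mul_mem_left _ _ (Ideal.subset_span ⟨i, h, rfl⟩))

end cert

/-! ### R(1,4) -/

section fam14
variable {m : ℕ}

/-- the quartic `∑ x_i^4`. -/
noncomputable def g4 (m : ℕ) : MvPolynomial (Fin (m + 4)) ℂ := ∑ i, X i ^ 4

theorem g4_hom : (g4 m).IsHomogeneous 4 := by
  unfold g4
  refine IsHomogeneous.sum _ _ _ (fun i _ => ?_)
  have := (isHomogeneous_X ℂ i).pow 4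
  simpa using this

theorem pderiv_g4 (j : Fin (m + 4)) : pderiv j (g4 m) = C 4 * X j ^ 3 := by
  classical
  unfold g4
  rw [map_sum, Finset.sum_eq_single j]
  · rw [Derivation.leibniz_pow, pderiv_X_self]
    simp [smul_smul]
    norm_num [map_ofNat]
  · intro i _ hi
    rw [Derivation.leibniz_pow, pderiv_X_of_ne hi]
    simp
  · intro h; exact absurd (Finset.mem_univ _) h

theorem closeGood14 {N : ℕ} (hN : 4 ≤ N) {A' : OF (N + 1)} (hA' : A' ∈ FolS (N + 1) 3)
    (h : Fam14 (dd A')) : ClGood N 3 A' := by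
  classical
  obtain ⟨m, rfl⟩ := Nat.exists_eq_add_of_le' hN
  obtain ⟨l, g, hl, hg, hθ⟩ := h
  set L := pa (at0 (m + 4) ℂ l) (X ⟨0, by omega⟩) with hL
  set Gg := pa (at0 (m + 4) ℂ g) (g4 m) with hG
  have hLh : L.IsHomogeneous 1 := pa_hom (Pool.Agent.Helper71.FL.at0_hom hl) (isHomogeneous_X _ _)
  have hGh : Gg.IsHomogeneous 4 := pa_hom (Pool.Agent.Helper71.FL.at0_hom hg) g4_hom
  have hmn : ∀ i j, (mn (dfo L) (dfo Gg) i j).IsHomogeneous 3 :=
    hom_two hLh hGh le_rfl (by norm_num) (by norm_num)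
  set i0 : Fin (m + 4) := ⟨0, by omega⟩ with hi0
  set i1 : Fin (m + 4) := ⟨1, by omega⟩ with hi1
  set i2 : Fin (m + 4) := ⟨2, by omega⟩ with hi2
  set i3 : Fin (m + 4) := ⟨3, by omega⟩ with hi3
  have n10 : i1 ≠ i0 := by simp [hi0, hi1, Fin.ext_iff]
  have n20 : i2 ≠ i0 := by simp [hi0, hi2, Fin.ext_iff]
  have n30 : i3 ≠ i0 := by simp [hi0, hi3, Fin.ext_iff]
  have n12 : i1 ≠ i2 := by simp [hi1, hi2, Fin.ext_iff]
  have n13 : i1 ≠ i3 := by simp [hi1, hi3, Fin.ext_iff]
  have n23 : i2 ≠ i3 := by simp [hi2, hi3, Fin.ext_iff]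
  let F : Fin (m + 4) → MvPolynomial (Fin (m + 4)) RP :=
    fun i => if i = i0 then L else mn (dfo L) (dfo Gg) i0 i
  let F2 : Fin (m + 4) → MvPolynomial (Fin (m + 4)) RP :=
    fun i => if i = i0 then L else if i = i1 then Gg else X i
  have hspL : sp (fun _ => 1) L = X i0 := sp_pa_one _ _
  have hspG : sp (fun _ => 1) Gg = g4 m := sp_pa_one _ _
  refine close_two (a := 1) (b := 4) le_rfl (by norm_num) (by norm_num) hA' hl hg hθ
    (l0 := X i0) (g0 := g4 m) (isHomogeneous_X _ _) g4_hom F F2 ?_ ?_ ?_ ?_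
    (i0 := i1) (i1 := i2) (i2 := i3) (i3 := i0) (j0 := i0) (j1 := i1) ?_ n10.symm
    (u0 := i0) (v0 := i1) (u1 := i0) (v1 := i2) (u2 := i0) (v2 := i3) ?_ ?_ ?_ ?_ ?_
  · intro i
    by_cases hi : i = i0
    · exact ⟨1, one_pos, by simp only [F, if_pos hi]; exact hLh⟩
    · exact ⟨3, by norm_num, by simp only [F, if_neg hi]; exact hmn _ _⟩
  · intro i
    by_cases hi : i = i0
    · exact ⟨1, one_pos, by simp only [F2, if_pos hi]; exact hLh⟩
    · by_cases hi' : i = i1
      · exact ⟨4, by norm_num, by simp only [F2, if_neg hi, if_pos hi']; exact hGh⟩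
      · exact ⟨1, one_pos, by simp only [F2, if_neg hi, if_neg hi']; exact isHomogeneous_X _ _⟩
  · intro j
    by_cases hj : j = i0
    · rw [hj]
      refine cert_step (c := 1) one_ne_zero 1 ?_
      have : C (1 : ℂ) * X i0 ^ 1 - sp (fun _ => 1) (F i0) = 0 := by
        have e : F i0 = L := if_pos rfl
        rw [e, hspL, C_1, one_mul, pow_one, sub_self]
      rw [this]; exact Ideal.zero_mem _
    · refine cert_step (c := 4) (by norm_num) 3 ?_
      have : C (4 : ℂ) * X j ^ 3 - sp (fun _ => 1) (F j) = 0 := by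
        simp only [F, if_neg hj]
        unfold mn dfo
        rw [map_sub, map_mul, map_mul, sp_pderiv, sp_pderiv, sp_pderiv, sp_pderiv, hspL, hspG,
          pderiv_X_self, pderiv_X_of_ne (Ne.symm hj), pderiv_g4]
        ring
      rw [this]; exact Ideal.zero_mem _
  · intro j
    by_cases hj : j = i0
    · rw [hj]
      refine cert_step (c := 1) one_ne_zero 1 ?_
      have : C (1 : ℂ) * X i0 ^ 1 - sp (fun _ => 1) (F2 i0) = 0 := by
        have e : F2 i0 = L := if_pos rfl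
        rw [e, hspL, C_1, one_mul, pow_one, sub_self]
      rw [this]; exact Ideal.zero_mem _
    · by_cases hj' : j = i1
      · refine cert_step (c := 1) one_ne_zero 4 ?_
        have : C (1 : ℂ) * X j ^ 4 - sp (fun _ => 1) (F2 j)
            = - ∑ i ∈ Finset.univ.erase i1, X i ^ 4 := by
          simp only [F2, if_neg hj, if_pos hj', hspG]
          rw [hj', g4, ← Finset.add_sum_erase _ _ (Finset.mem_univ i1)]
          simp
        rw [this]
        refine Submodule.neg_mem _ (Ideal.sum_mem _ (fun i hi => ?_))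
        have hi1' : i ≠ i1 := (Finset.mem_erase.mp hi).1
        by_cases hi0' : i = i0
        · have e1 : (X i : MvPolynomial (Fin (m + 4)) ℂ) ^ 4
              = X i ^ 3 * (fun i => sp (fun _ => 1) (F2 i)) i0 := by
            simp only [F2, if_true, hspL]
            rw [hi0']; ring
          rw [e1]
          apply mem_left'
          rw [hj', hi0, hi1]
          exact Fin.mk_lt_mk.mpr (by norm_num)
        · rw [pow_succ]
          apply mem_right
          rw [hj', Fin.lt_def, hi1]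
          have a1 : i.1 ≠ 0 := fun hh => hi0' (Fin.ext hh)
          have a2 : i.1 ≠ 1 := fun hh => hi1' (Fin.ext hh)
          show 1 < i.1
          omega
      · refine cert_step (c := 1) one_ne_zero 1 ?_
        have : C (1 : ℂ) * X j ^ 1 - sp (fun _ => 1) (F2 j) = 0 := by
          simp only [F2, if_neg hj, if_neg hj', sp_X]; simp
        rw [this]; exact Ideal.zero_mem _
  · simp [n12, n13, n10, n23, n20, n30]
  · simp only [F, if_neg n10]
    rfl
  · simp only [F, if_neg n20]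
    rfl
  · simp only [F, if_neg n30]
    rfl
  · simp only [F2, if_true]
    rfl
  · simp only [F2, if_neg n10, if_true]
    rfl

end fam14

/-! ### R(2,3) -/

section fam23
variable {m : ℕ}

/-- variables -/
noncomputable abbrev xx (m : ℕ) (i : ℕ) (hi : i < m + 4 := by omega) :
    MvPolynomial (Fin (m + 4)) ℂ := X ⟨i, hi⟩

/-- the quadric. -/
noncomputable def q2 (m : ℕ) : MvPolynomial (Fin (m + 4)) ℂ :=
  xx m 0 ^ 2 + C 2 * (xx m 1 * xx m 2) + C 2 * (xx m 2 * xx m 3)

/-- the cubic. -/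
noncomputable def c3 (m : ℕ) : MvPolynomial (Fin (m + 4)) ℂ :=
  xx m 1 ^ 3 + xx m 2 ^ 3 + C 3 * (xx m 0 ^ 2 * xx m 3)

theorem xx_hom (i : ℕ) (hi : i < m + 4) : (xx m i hi).IsHomogeneous 1 := isHomogeneous_X _ _

theorem q2_hom : (q2 m).IsHomogeneous 2 := by
  unfold q2
  have h1 := (xx_hom (m := m) 0 (by omega)).pow 2
  have h2 := (isHomogeneous_C (Fin (m + 4)) (2 : ℂ)).mul
    ((xx_hom (m := m) 1 (by omega)).mul (xx_hom (m := m) 2 (by omega)))
  have h3 := (isHomogeneous_C (Fin (m + 4)) (2 : ℂ)).mul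
    ((xx_hom (m := m) 2 (by omega)).mul (xx_hom (m := m) 3 (by omega)))
  exact (h1.add h2).add h3

theorem c3_hom : (c3 m).IsHomogeneous 3 := by
  unfold c3
  have h1 := (xx_hom (m := m) 1 (by omega)).pow 3
  have h2 := (xx_hom (m := m) 2 (by omega)).pow 3
  have h3 := (isHomogeneous_C (Fin (m + 4)) (3 : ℂ)).mul
    (((xx_hom (m := m) 0 (by omega)).pow 2).mul (xx_hom (m := m) 3 (by omega)))
  exact (h1.add h2).add h3

theorem pd_xx (i j : ℕ) (hi : i < m + 4) (hj : j < m + 4) :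
    pderiv (⟨i, hi⟩ : Fin (m + 4)) (xx m j hj) = if j = i then 1 else 0 := by
  classical
  unfold xx
  rw [pderiv_X]
  by_cases h : j = i
  · subst h
    simp
  · rw [if_neg h, Pi.single_eq_of_ne]
    intro hh
    exact h (congrArg Fin.val hh)

theorem dq (i : ℕ) (hi : i < m + 4) : pderiv (⟨i, hi⟩ : Fin (m + 4)) (q2 m) =
    C 2 * (if i = 0 then xx m 0 else 0) + C 2 * (if i = 1 then xx m 2 else 0)
      + C 2 * (if i = 2 then xx m 1 + xx m 3 else 0) + C 2 * (if i = 3 then xx m 2 else 0) := by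
  unfold q2
  simp only [map_add, pderiv_C_mul]
  simp only [Derivation.leibniz, Derivation.leibniz_pow, pd_xx, smul_eq_mul, nsmul_eq_mul]
  by_cases h0 : i = 0
  · subst h0; simp [map_ofNat]
  by_cases h1 : i = 1
  · subst h1; simp
  by_cases h2 : i = 2
  · subst h2; simp; ring
  by_cases h3 : i = 3
  · subst h3; simp
  · simp [h0, h1, h2, h3, Ne.symm h0, Ne.symm h1, Ne.symm h2, Ne.symm h3]

theorem dc (i : ℕ) (hi : i < m + 4) : pderiv (⟨i, hi⟩ : Fin (m + 4)) (c3 m) =
    C 3 * (if i = 0 then C 2 * (xx m 0 * xx m 3) else 0) + C 3 * (if i = 1 then xx m 1 ^ 2 else 0)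
      + C 3 * (if i = 2 then xx m 2 ^ 2 else 0) + C 3 * (if i = 3 then xx m 0 ^ 2 else 0) := by
  unfold c3
  simp only [map_add, pderiv_C_mul]
  simp only [Derivation.leibniz, Derivation.leibniz_pow, pd_xx, smul_eq_mul, nsmul_eq_mul]
  by_cases h0 : i = 0
  · subst h0; simp [map_ofNat]; ring
  by_cases h1 : i = 1
  · subst h1; simp [map_ofNat]
  by_cases h2 : i = 2
  · subst h2; simp [map_ofNat]
  by_cases h3 : i = 3
  · subst h3; simp
  · simp [h0, h1, h2, h3, Ne.symm h0, Ne.symm h1, Ne.symm h2, Ne.symm h3]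

theorem closeGood23 {N : ℕ} (hN : 4 ≤ N) {A' : OF (N + 1)} (hA' : A' ∈ FolS (N + 1) 3)
    (h : Fam23 (dd A')) : ClGood N 3 A' := by
  classical
  obtain ⟨m, rfl⟩ := Nat.exists_eq_add_of_le' hN
  obtain ⟨l, g, hl, hg, hθ⟩ := h
  set L := pa (at0 (m + 4) ℂ l) (q2 m) with hL
  set Gg := pa (at0 (m + 4) ℂ g) (c3 m) with hG
  have hLh : L.IsHomogeneous 2 := pa_hom (Pool.Agent.Helper71.FL.at0_hom hl) q2_hom
  have hGh : Gg.IsHomogeneous 3 := pa_hom (Pool.Agent.Helper71.FL.at0_hom hg) c3_hom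
  have hmn : ∀ i j, (mn (dfo L) (dfo Gg) i j).IsHomogeneous 3 :=
    hom_two hLh hGh (by norm_num) (by norm_num) (by norm_num)
  set i0 : Fin (m + 4) := ⟨0, by omega⟩ with hi0
  set i1 : Fin (m + 4) := ⟨1, by omega⟩ with hi1
  set i2 : Fin (m + 4) := ⟨2, by omega⟩ with hi2
  set i3 : Fin (m + 4) := ⟨3, by omega⟩ with hi3
  have n10 : i1 ≠ i0 := by simp [hi0, hi1, Fin.ext_iff]
  have n20 : i2 ≠ i0 := by simp [hi0, hi2, Fin.ext_iff]
  have n30 : i3 ≠ i0 := by simp [hi0, hi3, Fin.ext_iff]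
  have n12 : i1 ≠ i2 := by simp [hi1, hi2, Fin.ext_iff]
  have n13 : i1 ≠ i3 := by simp [hi1, hi3, Fin.ext_iff]
  have n23 : i2 ≠ i3 := by simp [hi2, hi3, Fin.ext_iff]
  let F : Fin (m + 4) → MvPolynomial (Fin (m + 4)) RP :=
    fun i => if i = i0 then mn (dfo L) (dfo Gg) i0 i3 else
      if i = i1 then mn (dfo L) (dfo Gg) i1 i2 else
      if i = i2 then mn (dfo L) (dfo Gg) i1 i3 else X i
  let F2 : Fin (m + 4) → MvPolynomial (Fin (m + 4)) RP :=
    fun i => if i = i0 then L else if i = i1 then Gg else X i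
  have F0 : F i0 = mn (dfo L) (dfo Gg) i0 i3 := if_pos rfl
  have F1 : F i1 = mn (dfo L) (dfo Gg) i1 i2 := by simp only [F, if_neg n10, if_true]
  have F2' : F i2 = mn (dfo L) (dfo Gg) i1 i3 := by
    simp only [F, if_neg n20, if_neg n12.symm, if_true]
  have Fo : ∀ i, i ≠ i0 → i ≠ i1 → i ≠ i2 → F i = X i := by
    intro i h0 h1 h2
    simp only [F, if_neg h0, if_neg h1, if_neg h2]
  have G0 : F2 i0 = L := if_pos rfl
  have G1 : F2 i1 = Gg := by simp only [F2, if_neg n10, if_true]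
  have Go : ∀ i, i ≠ i0 → i ≠ i1 → F2 i = X i := by
    intro i h0 h1
    simp only [F2, if_neg h0, if_neg h1]
  have hspL : sp (fun _ => 1) L = q2 m := sp_pa_one _ _
  have hspG : sp (fun _ => 1) Gg = c3 m := sp_pa_one _ _
  have hspmn : ∀ u v : Fin (m + 4), sp (fun _ => 1) (mn (dfo L) (dfo Gg) u v)
      = pderiv u (q2 m) * pderiv v (c3 m) - pderiv v (q2 m) * pderiv u (c3 m) := by
    intro u v
    unfold mn dfo
    rw [map_sub, map_mul, map_mul, sp_pderiv, sp_pderiv, sp_pderiv, sp_pderiv, hspL, hspG]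
  have v0 : sp (fun _ => 1) (F i0) = C 6 * xx m 0 ^ 3 - C 12 * (xx m 0 * xx m 2 * xx m 3) := by
    rw [F0, hspmn, dq, dq, dc, dc]
    simp only [if_true, map_ofNat]
    norm_num
    ring
  have v1 : sp (fun _ => 1) (F i1) = C 6 * xx m 2 ^ 3 - C 6 * xx m 1 ^ 3
      - C 6 * (xx m 1 ^ 2 * xx m 3) := by
    rw [F1, hspmn, dq, dq, dc, dc]
    simp only [if_true, map_ofNat]
    norm_num
    ring
  have v2 : sp (fun _ => 1) (F i2) = C 6 * (xx m 2 * xx m 0 ^ 2) - C 6 * (xx m 2 * xx m 1 ^ 2) := by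
    rw [F2', hspmn, dq, dq, dc, dc]
    simp only [if_true, map_ofNat]
    norm_num
    ring
  have hlt01 : i0 < i1 := Fin.mk_lt_mk.mpr (by norm_num)
  have hlt02 : i0 < i2 := Fin.mk_lt_mk.mpr (by norm_num)
  have hlt03 : i0 < i3 := Fin.mk_lt_mk.mpr (by norm_num)
  have hlt12 : i1 < i2 := Fin.mk_lt_mk.mpr (by norm_num)
  have hlt13 : i1 < i3 := Fin.mk_lt_mk.mpr (by norm_num)
  have hlt23 : i2 < i3 := Fin.mk_lt_mk.mpr (by norm_num)
  refine close_two (a := 2) (b := 3) (by norm_num) (by norm_num) (by norm_num) hA' hl hg hθ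
    (l0 := q2 m) (g0 := c3 m) q2_hom c3_hom F F2 ?_ ?_ ?_ ?_
    (i0 := i0) (i1 := i1) (i2 := i2) (i3 := i3) (j0 := i0) (j1 := i1) ?_ n10.symm
    (u0 := i0) (v0 := i3) (u1 := i1) (v1 := i2) (u2 := i1) (v2 := i3) F0 F1 F2' G0 G1
  · intro i
    by_cases h0 : i = i0
    · exact ⟨3, by norm_num, by rw [h0, F0]; exact hmn _ _⟩
    by_cases h1 : i = i1
    · exact ⟨3, by norm_num, by rw [h1, F1]; exact hmn _ _⟩
    by_cases h2 : i = i2
    · exact ⟨3, by norm_num, by rw [h2, F2']; exact hmn _ _⟩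
    · exact ⟨1, one_pos, by rw [Fo i h0 h1 h2]; exact isHomogeneous_X _ _⟩
  · intro i
    by_cases h0 : i = i0
    · exact ⟨2, by norm_num, by rw [h0, G0]; exact hLh⟩
    by_cases h1 : i = i1
    · exact ⟨3, by norm_num, by rw [h1, G1]; exact hGh⟩
    · exact ⟨1, one_pos, by rw [Go i h0 h1]; exact isHomogeneous_X _ _⟩
  · intro j
    by_cases h0 : j = i0
    · rw [h0]
      refine cert_step (c := 6) (by norm_num) 3 ?_
      have : C (6 : ℂ) * X i0 ^ 3 - sp (fun _ => 1) (F i0)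
          = (C 12 * (xx m 0 * xx m 2)) * X i3 := by
        rw [v0]
        ring
      rw [this]
      exact mem_right _ hlt03 _
    by_cases h1 : j = i1
    · rw [h1]
      refine cert_step (c := -6) (by norm_num) 3 ?_
      have : C (-6 : ℂ) * X i1 ^ 3 - sp (fun _ => 1) (F i1)
          = (- (C 6 * xx m 2 ^ 2)) * X i2 + (C 6 * xx m 1 ^ 2) * X i3 := by
        rw [v1, C_neg]
        ring
      rw [this]
      exact Ideal.add_mem _ (mem_right _ hlt12 _) (mem_right _ hlt13 _)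
    by_cases h2 : j = i2
    · rw [h2]
      set I : Ideal (MvPolynomial (Fin (m + 4)) ℂ) :=
        Ideal.span ((fun i => sp (fun _ => 1) (F i)) '' {i | i ≤ i2}) ⊔
          Ideal.span (X '' {i | i2 < i}) with hI
      have hx3 : (X i3 : MvPolynomial (Fin (m + 4)) ℂ) ∈ I := by
        have := mem_right (Ideal.span ((fun i => sp (fun _ : Fin 1 => (1 : ℂ)) (F i)) '' {i | i ≤ i2}))
          hlt23 (1 : MvPolynomial (Fin (m + 4)) ℂ)
        rwa [one_mul] at this
      have hf0 : sp (fun _ => 1) (F i0) ∈ I := by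
        have := mem_left (f := fun i => sp (fun _ : Fin 1 => (1 : ℂ)) (F i)) hlt02.le 1
        rwa [one_mul] at this
      have hf1 : sp (fun _ => 1) (F i1) ∈ I := by
        have := mem_left (f := fun i => sp (fun _ : Fin 1 => (1 : ℂ)) (F i)) hlt12.le 1
        rwa [one_mul] at this
      have hf2 : sp (fun _ => 1) (F i2) ∈ I := by
        have := mem_left (f := fun i => sp (fun _ : Fin 1 => (1 : ℂ)) (F i)) (le_refl i2) 1
        rwa [one_mul] at this
      have hC : ∀ c d : ℂ, c * d = 1 →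
          (C c * C d : MvPolynomial (Fin (m + 4)) ℂ) = 1 := by
        intro c d hcd; rw [← C_mul, hcd, C_1]
      have e16 := hC (1 / 6) 6 (by norm_num)
      have hx0 : (X i0 : MvPolynomial (Fin (m + 4)) ℂ) ∈ I.radical := by
        refine ⟨3, ?_⟩
        have e : (X i0 : MvPolynomial (Fin (m + 4)) ℂ) ^ 3 = C (1 / 6) * sp (fun _ => 1) (F i0)
            + (C (1 / 6) * (C 12 * (xx m 0 * xx m 2))) * X i3 := by
          rw [v0]
          linear_combination (- xx m 0 ^ 3) * e16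
        rw [e]
        exact Ideal.add_mem _ (Ideal.mul_mem_left _ _ hf0) (Ideal.mul_mem_left _ _ hx3)
      have hle := Ideal.le_radical (I := I)
      have h4 : (X i2 : MvPolynomial (Fin (m + 4)) ℂ) ^ 4 ∈ I.radical := by
        have e : (X i2 : MvPolynomial (Fin (m + 4)) ℂ) ^ 4 =
            (C (1 / 6) * xx m 2) * sp (fun _ => 1) (F i1)
            - (C (1 / 6) * xx m 1) * sp (fun _ => 1) (F i2)
            + (xx m 1 * xx m 2 * xx m 0) * X i0 + (xx m 2 * xx m 1 ^ 2) * X i3 := by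
          rw [v1, v2]
          have e1 : ∀ y : MvPolynomial (Fin (m + 4)) ℂ, C (1 / 6) * (C 6 * y) = y := by
            intro y; rw [← mul_assoc, e16, one_mul]
          have : (C (1 / 6) * xx m 2) * (C 6 * xx m 2 ^ 3 - C 6 * xx m 1 ^ 3
              - C 6 * (xx m 1 ^ 2 * xx m 3)) = C (1 / 6) * (C 6 * (xx m 2 * (xx m 2 ^ 3
              - xx m 1 ^ 3 - xx m 1 ^ 2 * xx m 3))) := by ring
          rw [this, e1]
          have : (C (1 / 6) * xx m 1) * (C 6 * (xx m 2 * xx m 0 ^ 2)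
              - C 6 * (xx m 2 * xx m 1 ^ 2)) = C (1 / 6) * (C 6 * (xx m 1 * (xx m 2 * xx m 0 ^ 2
              - xx m 2 * xx m 1 ^ 2))) := by ring
          rw [this, e1]
          ring
        rw [e]
        exact Ideal.add_mem _ (Ideal.add_mem _ (Ideal.sub_mem _
          (Ideal.mul_mem_left _ _ (hle hf1)) (Ideal.mul_mem_left _ _ (hle hf2)))
          (Ideal.mul_mem_left _ _ hx0)) (Ideal.mul_mem_left _ _ (hle hx3))
      have h5 : (X i2 : MvPolynomial (Fin (m + 4)) ℂ) ∈ I.radical.radical := ⟨4, h4⟩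
      rwa [Ideal.radical_idem] at h5
    · refine cert_step (c := 1) one_ne_zero 1 ?_
      have : C (1 : ℂ) * X j ^ 1 - sp (fun _ => 1) (F j) = 0 := by
        rw [Fo j h0 h1 h2, sp_X, C_1, one_mul, pow_one, sub_self]
      rw [this]; exact Ideal.zero_mem _
  · intro j
    by_cases h0 : j = i0
    · rw [h0]
      refine cert_step (c := 1) one_ne_zero 2 ?_
      have : C (1 : ℂ) * X i0 ^ 2 - sp (fun _ => 1) (F2 i0)
          = (- (C 2 * xx m 1)) * X i2 + (- (C 2 * xx m 2)) * X i3 := by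
        rw [G0, hspL, C_1, one_mul]
        unfold q2
        ring
      rw [this]
      exact Ideal.add_mem _ (mem_right _ hlt02 _) (mem_right _ hlt03 _)
    by_cases h1 : j = i1
    · rw [h1]
      refine cert_step (c := 1) one_ne_zero 3 ?_
      have : C (1 : ℂ) * X i1 ^ 3 - sp (fun _ => 1) (F2 i1)
          = (- (xx m 2 ^ 2)) * X i2 + (- (C 3 * xx m 0 ^ 2)) * X i3 := by
        rw [G1, hspG, C_1, one_mul]
        unfold c3
        ring
      rw [this]
      exact Ideal.add_mem _ (mem_right _ hlt12 _) (mem_right _ hlt13 _)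
    · refine cert_step (c := 1) one_ne_zero 1 ?_
      have : C (1 : ℂ) * X j ^ 1 - sp (fun _ => 1) (F2 j) = 0 := by
        rw [Go j h0 h1, sp_X, C_1, one_mul, pow_one, sub_self]
      rw [this]; exact Ideal.zero_mem _
  · simp [n12, n13, n10.symm, n23, n20.symm, n30.symm]

end fam23

end Pool.Agent.Helper28.FolReg
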