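import Pool.Agent.Helper28.FolReg.Path

set_option autoImplicit false

/-!
Straight paths of polynomials and the closure statement for `θ = dl ∧ dg`.
-/

namespace Pool.Agent.Helper28.FolReg

open MvPolynomial
open Pool.Agent.Helper71.FL (Reg4 w12 ct AnnI Good Dec pf Closed dd at0 emb res IntB)
open Pool.Agent.Helper93 (OF RE IntS FolS Cop)

theorem pderiv_comm' {σ R : Type} [CommRing R] (i j : σ) (p : MvPolynomial σ R) :
    pderiv i (pderiv j p) = pderiv j (pderiv i p) := by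
  classical
  have h : ⁅(pderiv i : Derivation R (MvPolynomial σ R) (MvPolynomial σ R)),
      (pderiv j : Derivation R (MvPolynomial σ R) (MvPolynomial σ R))⁆ = 0 := by
    apply MvPolynomial.derivation_ext
    intro k
    rw [Derivation.commutator_apply]
    rw [pderiv_X, pderiv_X]
    simp only [Pi.single_apply, Derivation.coe_zero, Pi.zero_apply]
    have h0 : ∀ (a b : σ) (q : Prop) [Decidable q], pderiv a (if q then (1 : MvPolynomial σ R) else 0)
        = 0 := by
      intro a b q _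
      split_ifs
      · exact pderiv_one
      · exact map_zero _
    rw [h0 i i, h0 j j, sub_zero]
  have h2 := congrArg (fun D : Derivation R (MvPolynomial σ R) (MvPolynomial σ R) => D p) h
  simp only [Derivation.commutator_apply, Derivation.coe_zero, Pi.zero_apply] at h2
  exact sub_eq_zero.mp h2

/-- the straight path from `a` (parameter 0) to `b` (parameter 1). -/
noncomputable def pa {σ : Type} (a b : MvPolynomial σ ℂ) : MvPolynomial σ RP :=
  MvPolynomial.map (C : ℂ →+* RP) a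
    + C (X 0) * (MvPolynomial.map (C : ℂ →+* RP) b - MvPolynomial.map (C : ℂ →+* RP) a)

section pa
variable {σ : Type}

theorem sp_pa (p : Fin 1 → ℂ) (a b : MvPolynomial σ ℂ) : sp p (pa a b) = a + C (p 0) * (b - a) := by
  unfold pa
  rw [map_add, map_mul, map_sub, sp_lift, sp_lift]
  congr 2
  simp [sp]

theorem sp_pa_zero (a b : MvPolynomial σ ℂ) : sp (fun _ => 0) (pa a b) = a := by
  rw [sp_pa]; simp

theorem sp_pa_one (a b : MvPolynomial σ ℂ) : sp (fun _ => 1) (pa a b) = b := by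
  rw [sp_pa]; simp

theorem pa_hom {a b : MvPolynomial σ ℂ} {n : ℕ} (ha : a.IsHomogeneous n)
    (hb : b.IsHomogeneous n) : (pa a b).IsHomogeneous n := by
  unfold pa
  refine (ha.map _).add ?_
  have h1 := (isHomogeneous_C σ (X 0 : RP)).mul
    ((hb.map (C : ℂ →+* RP)).sub (ha.map (C : ℂ →+* RP)))
  rwa [zero_add] at h1

theorem pderiv_pa (i : σ) (a b : MvPolynomial σ ℂ) :
    pderiv i (pa a b) = pa (pderiv i a) (pderiv i b) := by
  unfold pa
  rw [map_add, pderiv_C_mul, map_sub, pderiv_map, pderiv_map]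

theorem sp_pderiv {r : ℕ} (p : Fin r → ℂ) (i : σ) (a : MvPolynomial σ (MvPolynomial (Fin r) ℂ)) :
    sp p (pderiv i a) = pderiv i (sp p a) := by
  unfold sp
  rw [pderiv_map]

theorem sp_at0 {r N : ℕ} (p : Fin r → ℂ) (a : MvPolynomial (Fin (N + 1)) (MvPolynomial (Fin r) ℂ)) :
    sp p (at0 N (MvPolynomial (Fin r) ℂ) a) = at0 N ℂ (sp p a) :=
  Pool.Agent.Helper71.FL.at0_map _ a

theorem at0_pa {N : ℕ} (a b : MvPolynomial (Fin (N + 1)) ℂ) :
    at0 N RP (pa a b) = pa (at0 N ℂ a) (at0 N ℂ b) := by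
  unfold pa
  rw [map_add, map_mul, map_sub, ← Pool.Agent.Helper71.FL.at0_map,
    ← Pool.Agent.Helper71.FL.at0_map]
  congr 2
  have : (C (X 0 : RP) : MvPolynomial (Fin (N + 1)) RP) = algebraMap RP _ (X 0) := rfl
  rw [this, AlgHom.commutes]
  rfl

end pa

/-- the differential. -/
noncomputable def dfo {n : ℕ} {B : Type} [CommRing B] (g : MvPolynomial (Fin n) B) (i : Fin n) :
    MvPolynomial (Fin n) B := pderiv i g

theorem closed_two {n : ℕ} {B : Type} [CommRing B] (l g : MvPolynomial (Fin n) B) :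
    Closed (mn (dfo l) (dfo g)) := by
  intro i j k
  unfold mn dfo
  simp only [map_sub, Derivation.leibniz, smul_eq_mul]
  rw [pderiv_comm' j i l, pderiv_comm' k i l, pderiv_comm' k j l, pderiv_comm' j i g,
    pderiv_comm' k i g, pderiv_comm' k j g]
  ring

theorem dec_mn {A : Type} [CommRing A] {ι : Type} (α β : ι → A) : Dec (mn α β) := by
  refine ⟨fun i => ?_, fun i j => ?_, fun i j k l => ?_⟩
  · unfold mn; ring
  · unfold mn; ring
  · unfold pf mn; ring

theorem hom_two {n : ℕ} {B : Type} [CommRing B] {l g : MvPolynomial (Fin n) B} {a b : ℕ}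
    (hl : l.IsHomogeneous a) (hg : g.IsHomogeneous b) (ha : 1 ≤ a) (hb : 1 ≤ b)
    (hab : a + b = 5) (i j : Fin n) : (mn (dfo l) (dfo g) i j).IsHomogeneous 3 := by
  unfold mn dfo
  have h1 : ∀ i j : Fin n, (pderiv i l * pderiv j g).IsHomogeneous 3 := by
    intro i j
    have := (hl.pderiv (i := i)).mul (hg.pderiv (i := j))
    have e : a - 1 + (b - 1) = 3 := by omega
    rwa [e] at this
  exact (h1 i j).sub (h1 j i)

/-- the closure statement for `dl ∧ dg`, from two certificates at the end of the path. -/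
theorem close_two {N a b : ℕ} (ha : 1 ≤ a) (hb : 1 ≤ b) (hab : a + b = 5) {A' : OF (N + 1)}
    (hA' : A' ∈ FolS (N + 1) 3) {l g : MvPolynomial (Fin (N + 1)) ℂ} (hl : l.IsHomogeneous a)
    (hg : g.IsHomogeneous b) (hθ : ∀ i j, dd A' i j = mn (dfo l) (dfo g) i j)
    {l0 g0 : MvPolynomial (Fin N) ℂ} (hl0 : l0.IsHomogeneous a) (hg0 : g0.IsHomogeneous b)
    (F F2 : Fin N → MvPolynomial (Fin N) RP)
    (hF : ∀ i, PH (F i)) (hF2 : ∀ i, PH (F2 i))
    (hc : Cert (fun i => sp (fun _ => 1) (F i))) (hc2 : Cert (fun i => sp (fun _ => 1) (F2 i)))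
    {i0 i1 i2 i3 j0 j1 : Fin N} (hnd : [i0, i1, i2, i3].Nodup) (hj : j0 ≠ j1)
    {u0 v0 u1 v1 u2 v2 : Fin N}
    (e0 : F i0 = mn (dfo (pa (at0 N ℂ l) l0)) (dfo (pa (at0 N ℂ g) g0)) u0 v0)
    (e1 : F i1 = mn (dfo (pa (at0 N ℂ l) l0)) (dfo (pa (at0 N ℂ g) g0)) u1 v1)
    (e2 : F i2 = mn (dfo (pa (at0 N ℂ l) l0)) (dfo (pa (at0 N ℂ g) g0)) u2 v2)
    (e3 : F2 j0 = pa (at0 N ℂ l) l0) (e4 : F2 j1 = pa (at0 N ℂ g) g0) :
    ∀ G ∈ RE (N + 1), G A' ≠ 0 →
      ∃ A'' ∈ FolS (N + 1) 3, G A'' ≠ 0 ∧ Cop (res A'') ∧ Good (dd (res A'')) := by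
  classical
  obtain ⟨h1, h10, h1p⟩ := Cert.exists_open F (fun i => ⟨_, (hF i).choose_spec.2⟩) _ hc
  obtain ⟨h2, h20, h2p⟩ := Cert.exists_open F2 (fun i => ⟨_, (hF2 i).choose_spec.2⟩) _ hc2
  set L : MvPolynomial (Fin (N + 1)) RP := pa l (emb N ℂ l0) with hL
  set H : MvPolynomial (Fin (N + 1)) RP := pa g (emb N ℂ g0) with hH
  have hLa : (emb N ℂ l0).IsHomogeneous a := hl0.rename_isHomogeneous
  have hHa : (emb N ℂ g0).IsHomogeneous b := hg0.rename_isHomogeneous
  have hat : ∀ (p : Fin 1 → ℂ) (i j : Fin N), at0 N ℂ (sp p (mn (dfo L) (dfo H) i.succ j.succ))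
      = mn (dfo (sp p (pa (at0 N ℂ l) l0))) (dfo (sp p (pa (at0 N ℂ g) g0))) i j := by
    intro p i j
    rw [← sp_at0]
    unfold mn dfo
    rw [map_sub, map_mul, map_mul, Pool.Agent.Helper71.FL.at0_pderiv_succ,
      Pool.Agent.Helper71.FL.at0_pderiv_succ, Pool.Agent.Helper71.FL.at0_pderiv_succ,
      Pool.Agent.Helper71.FL.at0_pderiv_succ, hL, hH, at0_pa, at0_pa,
      Pool.Agent.Helper71.FL.at0_emb, Pool.Agent.Helper71.FL.at0_emb,
      map_sub, map_mul, map_mul, sp_pderiv, sp_pderiv, sp_pderiv, sp_pderiv]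
  have hspmn : ∀ (p : Fin 1 → ℂ) (u v : Fin N),
      sp p (mn (dfo (pa (at0 N ℂ l) l0)) (dfo (pa (at0 N ℂ g) g0)) u v)
      = mn (dfo (sp p (pa (at0 N ℂ l) l0))) (dfo (sp p (pa (at0 N ℂ g) g0))) u v := by
    intro p u v
    unfold mn dfo
    rw [map_sub, map_mul, map_mul, sp_pderiv, sp_pderiv, sp_pderiv, sp_pderiv]
  refine path_close hA' (mn (dfo L) (dfo H)) (closed_two _ _) (dec_mn _ _)
    (hom_two (pa_hom hl hLa) (pa_hom hg hHa) ha hb hab) ?_ (hh := h1 * h2) ?_ ?_
  · intro i j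
    rw [hθ]
    unfold mn dfo
    rw [map_sub, map_mul, map_mul, sp_pderiv, sp_pderiv, sp_pderiv, sp_pderiv, hL, hH,
      sp_pa_zero, sp_pa_zero]
  · refine mul_ne_zero ?_ ?_
    · rintro rfl; exact h10 (map_zero _)
    · rintro rfl; exact h20 (map_zero _)
  · intro p hp
    rw [map_mul] at hp
    have c1 := h1p p (left_ne_zero_of_mul hp)
    have c2 := h2p p (right_ne_zero_of_mul hp)
    have hPH : ∀ i, PH (sp p (F i)) := fun i => by
      obtain ⟨e, he, hh⟩ := hF i
      exact ⟨e, he, sp_hom p hh⟩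
    have hPH2 : ∀ i, PH (sp p (F2 i)) := fun i => by
      obtain ⟨e, he, hh⟩ := hF2 i
      exact ⟨e, he, sp_hom p hh⟩
    set lp := sp p (pa (at0 N ℂ l) l0) with hlp
    set gp := sp p (pa (at0 N ℂ g) g0) with hgp
    have m0 : sp p (F i0) = mn (dfo lp) (dfo gp) u0 v0 := by rw [e0, hspmn]
    have m1 : sp p (F i1) = mn (dfo lp) (dfo gp) u1 v1 := by rw [e1, hspmn]
    have m2 : sp p (F i2) = mn (dfo lp) (dfo gp) u2 v2 := by rw [e2, hspmn]
    have hn := hnd
    simp only [List.nodup_cons, List.mem_cons, List.not_mem_nil, or_false, not_or] at hn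
    have hreg2 : Reg2 (mn (dfo lp) (dfo gp) u0 v0) (mn (dfo lp) (dfo gp) u1 v1) := by
      have := c1.reg2 hPH hn.1.1 (e0 := 1) (e1 := 1) Nat.one_pos Nat.one_pos
      rwa [pow_one, pow_one, m0, m1] at this
    have hfun : (fun i j : Fin N => at0 N ℂ (sp p (mn (dfo L) (dfo H) i.succ j.succ)))
        = mn (dfo lp) (dfo gp) := by
      funext i j; exact hat p i j
    constructor
    · rw [hfun]
      refine good_two hreg2 (annI_mn hreg2 u0 v0) (annI_mn hreg2 u1 v1) (annI_mn hreg2 u2 v2)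
        (δ := sp p (F i3)) ?_
      intro k hk
      have := c1.reg4 hPH hnd hk hk hk Nat.one_pos
      rwa [pow_one, m0, m1, m2] at this
    · rw [hfun]
      have hlh : lp.IsHomogeneous a := sp_hom p (pa_hom (Pool.Agent.Helper71.FL.at0_hom hl) hl0)
      have hgh : gp.IsHomogeneous b := sp_hom p (pa_hom (Pool.Agent.Helper71.FL.at0_hom hg) hg0)
      have s1 : ∑ i, X i * dfo lp i = C (a : ℂ) * lp := by
        have := hlh.sum_X_mul_pderiv
        unfold dfo
        rw [this, nsmul_eq_mul, map_natCast]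
      have s2 : ∑ i, X i * dfo gp i = C (b : ℂ) * gp := by
        have := hgh.sum_X_mul_pderiv
        unfold dfo
        rw [this, nsmul_eq_mul, map_natCast]
      have hr2 : Reg2 lp gp := by
        have := c2.reg2 hPH2 hj (e0 := 1) (e1 := 1) Nat.one_pos Nat.one_pos
        rwa [pow_one, pow_one, e3, e4] at this
      have hca : IsUnit (C (a : ℂ) : MvPolynomial (Fin N) ℂ) :=
        (isUnit_iff_ne_zero.mpr (Nat.cast_ne_zero.mpr (by omega))).map C
      have hcb : IsUnit (C (b : ℂ) : MvPolynomial (Fin N) ℂ) :=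
        (isUnit_iff_ne_zero.mpr (Nat.cast_ne_zero.mpr (by omega))).map C
      refine cop_two hreg2 s1 s2 ?_ ?_
      · intro q hq hq1 hq2
        exact hr2.cp q hq ((hca.dvd_mul_left).mp hq1) ((hcb.dvd_mul_left).mp hq2)
      · left
        intro h0
        have hl0' : lp = 0 := by
          rcases mul_eq_zero.mp h0 with h | h
          · exact absurd h hca.ne_zero
          · exact h
        have := hr2.1 1 (by rw [hl0', zero_mul])
        exact one_ne_zero this

end Pool.Agent.Helper28.FolReg
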