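import Pool.Agent.Helper28.FolReg.Three
import Pool.Agent.Helper71.FL.ConeL

set_option autoImplicit false

/-!
Closure of the good set along polynomial paths; coprimality criteria.
-/

namespace Pool.Agent.Helper28.FolReg

open MvPolynomial
open Pool.Agent.Helper71.FL (Reg4 w12 ct AnnI Good Dec pf Closed dd at0 res IntB)
open Pool.Agent.Helper93 (OF RE IntS FolS Cop)

/-- the parameter ring of a path. -/
abbrev RP : Type := MvPolynomial (Fin 1) ℂ

theorem RE_sp {n r : ℕ} (AA : Fin n → MvPolynomial (Fin n) (MvPolynomial (Fin r) ℂ))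
    {G : OF n → ℂ} (hG : G ∈ RE n) :
    ∃ P : MvPolynomial (Fin r) ℂ, ∀ p : Fin r → ℂ, G (fun i => sp p (AA i)) = eval p P := by
  unfold RE at hG
  induction hG using Algebra.adjoin_induction with
  | mem f hf =>
    obtain ⟨i, μ, rfl⟩ := hf
    exact ⟨(AA i).coeff μ, fun p => coeff_sp p _ _⟩
  | algebraMap c => exact ⟨C c, fun p => by simp⟩
  | add f g _ _ hf hg =>
    obtain ⟨P, hP⟩ := hf
    obtain ⟨Q, hQ⟩ := hg
    exact ⟨P + Q, fun p => by rw [Pi.add_apply, hP, hQ, map_add]⟩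
  | mul f g _ _ hf hg =>
    obtain ⟨P, hP⟩ := hf
    obtain ⟨Q, hQ⟩ := hg
    exact ⟨P * Q, fun p => by rw [Pi.mul_apply, hP, hQ, map_mul]⟩

theorem cop_smul {n : ℕ} {A : OF n} {c : ℂ} (hc : c ≠ 0) (h : Cop (fun j => C c * A j)) :
    Cop A := by
  intro p hp
  exact h p (fun i => (hp i).mul_left _)

theorem cop_of_smul {n : ℕ} {A : OF n} {c : ℂ} (hc : c ≠ 0) (h : Cop A) :
    Cop (fun j => C c * A j) := by
  intro p hp
  apply h p
  intro i
  have h1 := hp i
  have h2 : A i = C c⁻¹ * (C c * A i) := by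
    rw [← mul_assoc, ← C_mul, inv_mul_cancel₀ hc, C_1, one_mul]
  rw [h2]
  exact h1.mul_left _

/-- closure of the good set along a path, in terms of 2-forms. -/
theorem path_close {N : ℕ} {A' : OF (N + 1)} (hA' : A' ∈ FolS (N + 1) 3)
    (Θ : Fin (N + 1) → Fin (N + 1) → MvPolynomial (Fin (N + 1)) RP)
    (hcl : Closed Θ) (hdec : Dec Θ) (hhom : ∀ i j, (Θ i j).IsHomogeneous 3)
    (h0 : ∀ i j, sp (fun _ => 0) (Θ i j) = dd A' i j)
    {hh : RP} (hh0 : hh ≠ 0)
    (hgood : ∀ p : Fin 1 → ℂ, eval p hh ≠ 0 →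
      Good (fun i j : Fin N => at0 N ℂ (sp p (Θ i.succ j.succ))) ∧
      Cop (fun j : Fin N => ct X (fun i j => at0 N ℂ (sp p (Θ i.succ j.succ))) j)) :
    ∀ G ∈ RE (N + 1), G A' ≠ 0 →
      ∃ A'' ∈ FolS (N + 1) 3, G A'' ≠ 0 ∧ Cop (res A'') ∧ Good (dd (res A'')) := by
  intro G hG hGA
  set AA : Fin (N + 1) → MvPolynomial (Fin (N + 1)) RP :=
    fun j => C (algebraMap ℂ RP (1 / ((3 : ℕ) + 2 : ℂ))) * ct X Θ j with hAA
  obtain ⟨hint, hddA⟩ := Pool.Agent.Helper71.FL.IntB_of_closed (d := 3) hcl hdec hhom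
  have h5 : ((3 : ℕ) + 2 : ℂ) ≠ 0 := by norm_num
  -- the members of the path
  have hmem : ∀ p : Fin 1 → ℂ, (fun i => sp p (AA i)) ∈ IntB (N + 1) 3 ℂ := by
    intro p
    exact Pool.Agent.Helper71.FL.IntB_map (eval p) hint
  have hddp : ∀ (p : Fin 1 → ℂ) (i j : Fin (N + 1)),
      dd (fun i => sp p (AA i)) i j = sp p (Θ i j) := by
    intro p i j
    have := Pool.Agent.Helper71.FL.dd_map (eval p) AA i j
    rw [hddA] at this
    exact this.symm
  have hA0 : (fun i => sp (fun _ : Fin 1 => (0 : ℂ)) (AA i)) = A' := by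
    have e1 := fun j => Pool.Agent.Helper71.FL.euler_dd (hmem (fun _ => 0)) j
    have hA'B : A' ∈ IntB (N + 1) 3 ℂ := by
      rw [Pool.Agent.Helper71.FL.IntB_eq]; exact hA'.1
    have e2 := fun j => Pool.Agent.Helper71.FL.euler_dd hA'B j
    funext j
    have e3 : ct X (dd (fun i => sp (fun _ : Fin 1 => (0 : ℂ)) (AA i))) j = ct X (dd A') j := by
      unfold ct
      apply Finset.sum_congr rfl
      intro i _
      rw [hddp, h0]
    rw [e1 j, e2 j] at e3
    have hC : (C (algebraMap ℂ ℂ ((3 : ℕ) + 2)) : MvPolynomial (Fin (N + 1)) ℂ) ≠ 0 := by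
      rw [Ne, C_eq_zero]
      exact h5
    exact mul_left_cancel₀ hC e3
  -- a value of the parameter
  obtain ⟨c, hc, hcA, hcB⟩ := Pool.Agent.Helper93.cop_open (Nat.succ_pos N) (d := 3)
    (A := A') hA'.1.1 hA'.2
  obtain ⟨P, hP⟩ := RE_sp AA ((RE (N + 1)).mul_mem hG hc)
  have hP0 : P ≠ 0 := by
    rintro rfl
    apply mul_ne_zero hGA hcA
    have := hP (fun _ => 0)
    rw [hA0, map_zero] at this
    exact this
  obtain ⟨p, hp⟩ : ∃ p : Fin 1 → ℂ, eval p (P * hh) ≠ 0 := by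
    by_contra hcon
    push Not at hcon
    exact mul_ne_zero hP0 hh0 (MvPolynomial.funext (fun p => by rw [hcon p, map_zero]))
  rw [map_mul] at hp
  obtain ⟨hgd, hcp⟩ := hgood p (right_ne_zero_of_mul hp)
  have hdr : ∀ i j : Fin N, dd (res (fun i => sp p (AA i))) i j
      = at0 N ℂ (sp p (Θ i.succ j.succ)) := by
    intro i j
    rw [← hddp]
    unfold dd res
    rw [map_sub, Pool.Agent.Helper71.FL.at0_pderiv_succ, Pool.Agent.Helper71.FL.at0_pderiv_succ]
  have hdr' : dd (res (fun i => sp p (AA i))) =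
      (fun i j : Fin N => at0 N ℂ (sp p (Θ i.succ j.succ))) := by
    funext i j; exact hdr i j
  have hres := Pool.Agent.Helper71.FL.res_IntB (hmem p)
  have hcop : Cop (res (fun i => sp p (AA i))) := by
    apply cop_smul h5
    have e : (fun j => C ((3 : ℕ) + 2 : ℂ) * res (fun i => sp p (AA i)) j)
        = (fun j : Fin N => ct X (fun i j => at0 N ℂ (sp p (Θ i.succ j.succ))) j) := by
      funext j
      have := Pool.Agent.Helper71.FL.euler_dd hres j
      rw [hdr'] at this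
      exact this.symm
    rw [e]
    exact hcp
  have hGc : G (fun i => sp p (AA i)) * c (fun i => sp p (AA i)) ≠ 0 := by
    have := hP p
    rw [Pi.mul_apply] at this
    rw [this]
    exact left_ne_zero_of_mul hp
  have hmS : (fun i => sp p (AA i)) ∈ IntS (N + 1) 3 := by
    have := hmem p
    rw [Pool.Agent.Helper71.FL.IntB_eq] at this
    exact this
  refine ⟨fun i => sp p (AA i), ⟨hmS, ?_⟩, left_ne_zero_of_mul hGc, hcop, ?_⟩
  · exact hcB _ hmS.1 (right_ne_zero_of_mul hGc)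
  · rw [hdr']
    exact hgd

/-! ### coprimality -/

section cop
variable {S : Type} [CommRing S] [IsDomain S]

/-- two elements without common prime factor. -/
def CP (a b : S) : Prop := ∀ p, Prime p → p ∣ a → p ∣ b → False

theorem Reg2.cp {a b : S} (h : Reg2 a b) : CP a b := by
  intro p hp h1 h2
  obtain ⟨u, hu⟩ := h1
  obtain ⟨v, hv⟩ := h2
  obtain ⟨w, hw⟩ := h.2 u ⟨v, by rw [hu, hv]; ring⟩
  have h3 : a * (1 - p * w) = 0 := by
    have : a = p * (a * w) := by rw [← hw]; exact hu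
    linear_combination this
  have h4 := h.1 _ h3
  exact hp.not_isUnit (IsUnit.of_mul_eq_one w (by linear_combination -h4))

end cop

theorem cop_of_prime {n : ℕ} {A : OF n} (hne : ∃ i, A i ≠ 0)
    (h : ∀ p : MvPolynomial (Fin n) ℂ, Prime p → (∀ i, p ∣ A i) → False) : Cop A := by
  intro p hp
  by_contra hu
  obtain ⟨i, hi⟩ := hne
  have hp0 : p ≠ 0 := by
    rintro rfl
    exact hi (zero_dvd_iff.mp (hp i))
  obtain ⟨q, hq, hqp⟩ := WfDvdMonoid.exists_irreducible_factor hu hp0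
  exact h q hq.prime (fun j => hqp.trans (hp j))

/-- coprimality of `i_X (α ∧ β)` with `i_X α = a`, `i_X β = b`. -/
theorem cop_two {n : ℕ} {α β : Fin n → MvPolynomial (Fin n) ℂ} {i j i' j' : Fin n}
    (h : Reg2 (mn α β i j) (mn α β i' j')) {a b : MvPolynomial (Fin n) ℂ}
    (ha : ∑ l, X l * α l = a) (hb : ∑ l, X l * β l = b) (hab : CP a b) (hne : a ≠ 0 ∨ b ≠ 0) :
    Cop (fun l => ct X (mn α β) l) := by
  have hct : ∀ l, ct X (mn α β) l = a * β l - b * α l := by
    intro l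
    unfold ct mn
    rw [← ha, ← hb, Finset.sum_mul, Finset.sum_mul, ← Finset.sum_sub_distrib]
    exact Finset.sum_congr rfl (fun i _ => by ring)
  apply cop_of_prime
  · by_contra hcon
    push Not at hcon
    have e : ∀ l, (-b) * α l + a * β l = 0 := by
      intro l
      have := hcon l
      rw [hct] at this
      linear_combination this
    obtain ⟨e1, e2⟩ := indep_two h.1 e
    rcases hne with h1 | h1
    · exact h1 e2
    · exact h1 (neg_eq_zero.mp e1)
  · intro p hp hall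
    have e : ∀ l, p ∣ a * β l - b * α l := fun l => by rw [← hct]; exact hall l
    have hcases : ∀ (u v : Fin n), p ∣ a * mn α β u v ∧ p ∣ b * mn α β u v := by
      intro u v
      constructor
      · have := dvd_sub ((e v).mul_left (α u)) ((e u).mul_left (α v))
        have h2 : α u * (a * β v - b * α v) - α v * (a * β u - b * α u) = a * mn α β u v := by
          unfold mn; ring
        rwa [h2] at this
      · have := dvd_sub ((e v).mul_left (β u)) ((e u).mul_left (β v))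
        have h2 : β u * (a * β v - b * α v) - β v * (a * β u - b * α u) = b * mn α β u v := by
          unfold mn; ring
        rwa [h2] at this
    have hnot : ¬ (p ∣ mn α β i j ∧ p ∣ mn α β i' j') := fun hh => h.cp p hp hh.1 hh.2
    have hpa : p ∣ a ∧ p ∣ b := by
      rcases not_and_or.mp hnot with h1 | h1
      · obtain ⟨h2, h3⟩ := hcases i j
        exact ⟨(hp.dvd_or_dvd h2).resolve_right h1, (hp.dvd_or_dvd h3).resolve_right h1⟩
      · obtain ⟨h2, h3⟩ := hcases i' j'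
        exact ⟨(hp.dvd_or_dvd h2).resolve_right h1, (hp.dvd_or_dvd h3).resolve_right h1⟩
    exact hab p hp hpa.1 hpa.2

/-- coprimality of `i_X θ` for the three-generator forms; `u = i_X φ`. -/
theorem cop_three {n : ℕ} {r : Fin 3 → MvPolynomial (Fin n) ℂ}
    {φ : Fin n → Fin 3 → MvPolynomial (Fin n) ℂ} {i j k i' j' k' : Fin n}
    (h : Reg2 (det3 (φ i) (φ j) (φ k)) (det3 (φ i') (φ j') (φ k')))
    {u : Fin 3 → MvPolynomial (Fin n) ℂ} (hu : ∀ m, ∑ l, X l * φ l m = u m)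
    (hcp : ∀ p, Prime p → p ∣ r 1 * u 2 - r 2 * u 1 → p ∣ r 2 * u 0 - r 0 * u 2 →
      p ∣ r 0 * u 1 - r 1 * u 0 → False)
    (hne : r 1 * u 2 - r 2 * u 1 ≠ 0 ∨ r 2 * u 0 - r 0 * u 2 ≠ 0 ∨ r 0 * u 1 - r 1 * u 0 ≠ 0) :
    Cop (fun l => ct X (th3 r φ) l) := by
  have hct : ∀ l, ct X (th3 r φ) l = (r 1 * u 2 - r 2 * u 1) * φ l 0
      + (r 2 * u 0 - r 0 * u 2) * φ l 1 + (r 0 * u 1 - r 1 * u 0) * φ l 2 := by
    intro l
    rw [ct_th3]
    have : (fun n => ∑ i, X i * φ i n) = u := by funext m; exact hu m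
    rw [this]
    unfold xi3 det3
    ring
  set c : Fin 3 → MvPolynomial (Fin n) ℂ := ![r 1 * u 2 - r 2 * u 1, r 2 * u 0 - r 0 * u 2,
    r 0 * u 1 - r 1 * u 0] with hc
  have hc0 : c 0 = r 1 * u 2 - r 2 * u 1 := rfl
  have hc1 : c 1 = r 2 * u 0 - r 0 * u 2 := rfl
  have hc2 : c 2 = r 0 * u 1 - r 1 * u 0 := rfl
  simp only [← hc0, ← hc1, ← hc2] at hct hcp hne
  apply cop_of_prime
  · by_contra hcon
    push Not at hcon
    have e := indep_three h.1 (c := c) (fun l => by rw [← hct]; exact hcon l)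
    rcases hne with h1 | h1 | h1
    · exact h1 (e 0)
    · exact h1 (e 1)
    · exact h1 (e 2)
  · intro p hp hall
    have e : ∀ l, p ∣ c 0 * φ l 0 + c 1 * φ l 1 + c 2 * φ l 2 := fun l => by
      rw [← hct]; exact hall l
    have hcases : ∀ (x y z : Fin n), ∀ m, p ∣ det3 (φ x) (φ y) (φ z) * c m := by
      intro x y z
      refine forall3 ?_ ?_ ?_
      · have h2 : det3 (φ x) (φ y) (φ z) * c 0 =
            (φ y 1 * φ z 2 - φ y 2 * φ z 1) * (c 0 * φ x 0 + c 1 * φ x 1 + c 2 * φ x 2)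
            + (φ z 1 * φ x 2 - φ z 2 * φ x 1) * (c 0 * φ y 0 + c 1 * φ y 1 + c 2 * φ y 2)
            + (φ x 1 * φ y 2 - φ x 2 * φ y 1) * (c 0 * φ z 0 + c 1 * φ z 1 + c 2 * φ z 2) := by
          simp only [det3]; ring
        rw [h2]
        exact dvd_add (dvd_add ((e x).mul_left _) ((e y).mul_left _)) ((e z).mul_left _)
      · have h2 : det3 (φ x) (φ y) (φ z) * c 1 =
            (φ y 2 * φ z 0 - φ y 0 * φ z 2) * (c 0 * φ x 0 + c 1 * φ x 1 + c 2 * φ x 2)
            + (φ z 2 * φ x 0 - φ z 0 * φ x 2) * (c 0 * φ y 0 + c 1 * φ y 1 + c 2 * φ y 2)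
            + (φ x 2 * φ y 0 - φ x 0 * φ y 2) * (c 0 * φ z 0 + c 1 * φ z 1 + c 2 * φ z 2) := by
          simp only [det3]; ring
        rw [h2]
        exact dvd_add (dvd_add ((e x).mul_left _) ((e y).mul_left _)) ((e z).mul_left _)
      · have h2 : det3 (φ x) (φ y) (φ z) * c 2 =
            (φ y 0 * φ z 1 - φ y 1 * φ z 0) * (c 0 * φ x 0 + c 1 * φ x 1 + c 2 * φ x 2)
            + (φ z 0 * φ x 1 - φ z 1 * φ x 0) * (c 0 * φ y 0 + c 1 * φ y 1 + c 2 * φ y 2)
            + (φ x 0 * φ y 1 - φ x 1 * φ y 0) * (c 0 * φ z 0 + c 1 * φ z 1 + c 2 * φ z 2) := by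
          simp only [det3]; ring
        rw [h2]
        exact dvd_add (dvd_add ((e x).mul_left _) ((e y).mul_left _)) ((e z).mul_left _)
    have hnot : ¬ (p ∣ det3 (φ i) (φ j) (φ k) ∧ p ∣ det3 (φ i') (φ j') (φ k')) :=
      fun hh => h.cp p hp hh.1 hh.2
    have hall' : ∀ m, p ∣ c m := by
      intro m
      rcases not_and_or.mp hnot with h1 | h1
      · exact (hp.dvd_or_dvd (hcases i j k m)).resolve_left h1
      · exact (hp.dvd_or_dvd (hcases i' j' k' m)).resolve_left h1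
    exact hcp p hp (hall' 0) (hall' 1) (hall' 2)

end Pool.Agent.Helper28.FolReg
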