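import Mathlib

set_option autoImplicit false

/-!
Regular sequences of homogeneous polynomials in plain form, with a triangular certificate.

`NZD J f` : `f` is a nonzerodivisor modulo the ideal `J`.
`RegSeq J l` : the list `l` is a regular sequence modulo `J` (weak form, no properness).
-/

namespace Pool.Agent.Helper28.FolReg

open MvPolynomial

section Ring

variable {R : Type*} [CommRing R]

/-- `f` is a nonzerodivisor modulo `J`. -/
def NZD (J : Ideal R) (f : R) : Prop := ∀ a, f * a ∈ J → a ∈ J

/-- regular sequence modulo `J`. -/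
def RegSeq : Ideal R → List R → Prop
  | _, [] => True
  | J, x :: l => NZD J x ∧ RegSeq (J ⊔ Ideal.span {x}) l

/-- the ideal generated by a list. -/
def spanL (l : List R) : Ideal R := Ideal.span {x | x ∈ l}

theorem spanL_nil : spanL ([] : List R) = ⊥ := by
  simp [spanL]

theorem spanL_cons (x : R) (l : List R) : spanL (x :: l) = Ideal.span {x} ⊔ spanL l := by
  unfold spanL
  rw [← Ideal.span_union]
  congr 1
  ext y
  simp

theorem spanL_append (l m : List R) : spanL (l ++ m) = spanL l ⊔ spanL m := by
  unfold spanL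
  rw [← Ideal.span_union]
  congr 1
  ext y
  simp

theorem RegSeq_append (l m : List R) : ∀ J : Ideal R,
    RegSeq J (l ++ m) ↔ RegSeq J l ∧ RegSeq (J ⊔ spanL l) m := by
  induction l with
  | nil => intro J; simp [RegSeq, spanL_nil]
  | cons x l ih =>
    intro J
    simp only [List.cons_append, RegSeq, ih, spanL_cons, and_assoc, sup_assoc]

theorem NZD.pow {J : Ideal R} {f : R} (h : NZD J f) (n : ℕ) : NZD J (f ^ n) := by
  induction n with
  | zero => intro a ha; simpa using ha
  | succ n ih =>
    intro a ha
    apply h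
    apply ih
    rw [pow_succ, mul_assoc] at ha
    exact ha

/-- exchange: if `l` is regular modulo `J` and a power of `l` lies in `J + (f)` then `f` is
regular modulo `J`. -/
theorem NZD.exchange {J : Ideal R} {l f : R} (h : NZD J l) {n : ℕ}
    (hn : l ^ n ∈ J ⊔ Ideal.span {f}) : NZD J f := by
  intro a ha
  apply h.pow n
  obtain ⟨j, hj, s, hs, hjs⟩ := Submodule.mem_sup.mp hn
  obtain ⟨t, rfl⟩ := Ideal.mem_span_singleton'.mp hs
  rw [← hjs, add_mul]
  refine J.add_mem (J.mul_mem_right _ hj) ?_
  rw [mul_assoc]
  exact J.mul_mem_left _ ha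

/-- the part of the swap lemma without homogeneity. -/
theorem NZD.swap_right {J : Ideal R} {x y : R} (hx : NZD J x)
    (hy : NZD (J ⊔ Ideal.span {x}) y) : NZD (J ⊔ Ideal.span {y}) x := by
  intro a ha
  obtain ⟨j, hj, s, hs, hjs⟩ := Submodule.mem_sup.mp ha
  obtain ⟨b, rfl⟩ := Ideal.mem_span_singleton'.mp hs
  have hb : y * b ∈ J ⊔ Ideal.span {x} := by
    have : y * b = -j + x * a := by rw [← hjs]; ring
    rw [this]
    refine Ideal.add_mem _ (Ideal.mem_sup_left (J.neg_mem hj)) (Ideal.mem_sup_right ?_)
    exact Ideal.mul_mem_right _ _ (Ideal.mem_span_singleton_self x)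
  obtain ⟨j', hj', s', hs', hjs'⟩ := Submodule.mem_sup.mp (hy b hb)
  obtain ⟨b', rfl⟩ := Ideal.mem_span_singleton'.mp hs'
  have key : a - y * b' ∈ J := by
    apply hx
    have : x * (a - y * b') = j + y * j' := by
      have h1 : x * a = j + b * y := hjs.symm
      rw [mul_sub, h1, ← hjs']
      ring
    rw [this]
    exact J.add_mem hj (J.mul_mem_left _ hj')
  have : a = (a - y * b') + b' * y := by ring
  rw [this]
  exact Ideal.add_mem _ (Ideal.mem_sup_left key)
    (Ideal.mem_sup_right (Ideal.mul_mem_left _ _ (Ideal.mem_span_singleton_self y)))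

theorem NZD.mem_pow {J : Ideal R} {x y : R} (hx : NZD J x)
    (hy : NZD (J ⊔ Ideal.span {x}) y) {a : R} (ha : y * a ∈ J) :
    ∀ n : ℕ, ∃ b, a - x ^ n * b ∈ J ∧ y * b ∈ J := by
  intro n
  induction n with
  | zero => exact ⟨a, by simp, ha⟩
  | succ n ih =>
    obtain ⟨b, hb, hyb⟩ := ih
    obtain ⟨j, hj, s, hs, hjs⟩ := Submodule.mem_sup.mp (hy b (Ideal.mem_sup_left hyb))
    obtain ⟨c, rfl⟩ := Ideal.mem_span_singleton'.mp hs
    refine ⟨c, ?_, ?_⟩
    · have : a - x ^ (n + 1) * c = (a - x ^ n * b) + x ^ n * j := by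
        rw [← hjs]; ring
      rw [this]
      exact J.add_mem hb (J.mul_mem_left _ hj)
    · apply hx
      have : x * (y * c) = y * b - y * j := by rw [← hjs]; ring
      rw [this]
      exact J.sub_mem hyb (J.mul_mem_left _ hj)

end Ring

section Poly

variable {σ : Type*} {k : Type*} [CommRing k]

/-- homogeneous ideals, plain form. -/
def HomI (J : Ideal (MvPolynomial σ k)) : Prop :=
  ∀ p ∈ J, ∀ n, homogeneousComponent n p ∈ J

theorem HomI.span {s : Set (MvPolynomial σ k)} (hs : ∀ p ∈ s, ∃ n, p.IsHomogeneous n) :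
    HomI (Ideal.span s) := by
  have key : ∀ p ∈ Ideal.span s, ∀ (a : MvPolynomial σ k) (n : ℕ),
      homogeneousComponent n (a * p) ∈ Ideal.span s := by
    intro p hp
    induction hp using Submodule.span_induction with
    | mem x hx =>
      intro a n
      obtain ⟨m, hm⟩ := hs x hx
      have hsum : a = ∑ i ∈ Finset.range (a.totalDegree + 1), homogeneousComponent i a :=
        (sum_homogeneousComponent a).symm
      rw [hsum, Finset.sum_mul, map_sum]
      refine Ideal.sum_mem _ (fun i _ => ?_)
      rw [homogeneousComponent_of_mem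
        ((homogeneousComponent_isHomogeneous i a).mul hm)]
      split_ifs
      · exact Ideal.mul_mem_left _ _ (Ideal.subset_span hx)
      · exact Ideal.zero_mem _
    | zero => intro a n; simp
    | add x y _ _ hx hy =>
      intro a n
      rw [mul_add, map_add]; exact Ideal.add_mem _ (hx a n) (hy a n)
    | smul b x _ hx =>
      intro a n
      rw [smul_eq_mul, ← mul_assoc]
      exact hx (a * b) n
  intro p hp n
  have := key p hp 1 n
  rwa [one_mul] at this

theorem HomI.bot : HomI (⊥ : Ideal (MvPolynomial σ k)) := by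
  intro p hp n
  rw [Ideal.mem_bot] at hp
  simp [hp]

theorem HomI.sup {I J : Ideal (MvPolynomial σ k)} (hI : HomI I) (hJ : HomI J) : HomI (I ⊔ J) := by
  intro p hp n
  obtain ⟨a, ha, b, hb, rfl⟩ := Submodule.mem_sup.mp hp
  rw [map_add]
  exact Ideal.add_mem _ (Ideal.mem_sup_left (hI a ha n)) (Ideal.mem_sup_right (hJ b hb n))

theorem HomI.single {f : MvPolynomial σ k} {n : ℕ} (hf : f.IsHomogeneous n) :
    HomI (Ideal.span {f}) :=
  HomI.span (by intro p hp; rw [Set.mem_singleton_iff] at hp; exact ⟨n, hp ▸ hf⟩)

/-- separatedness. -/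
theorem HomI.mem_of_forall_pow {J : Ideal (MvPolynomial σ k)} (hJ : HomI J)
    {x : MvPolynomial σ k} {e : ℕ} (hx : x.IsHomogeneous e) (he : 0 < e)
    {a : MvPolynomial σ k} (h : ∀ n : ℕ, ∃ b, a - x ^ n * b ∈ J) : a ∈ J := by
  rw [← sum_homogeneousComponent a]
  refine Ideal.sum_mem _ (fun d _ => ?_)
  obtain ⟨b, hb⟩ := h (d + 1)
  have h1 := hJ _ hb d
  rw [map_sub] at h1
  have h2 : homogeneousComponent d (x ^ (d + 1) * b) = 0 := by
    have hsum : b = ∑ i ∈ Finset.range (b.totalDegree + 1), homogeneousComponent i b :=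
      (sum_homogeneousComponent b).symm
    rw [hsum, Finset.mul_sum, map_sum]
    refine Finset.sum_eq_zero (fun i _ => ?_)
    rw [homogeneousComponent_of_mem
      ((hx.pow (d + 1)).mul (homogeneousComponent_isHomogeneous i b))]
    rw [if_neg]
    intro hd
    have : d + 1 ≤ e * (d + 1) := Nat.le_mul_of_pos_left _ he
    omega
  rw [h2, sub_zero] at h1
  exact h1

/-- swap of two elements. -/
theorem NZD.swap_left {J : Ideal (MvPolynomial σ k)} (hJ : HomI J) {x y : MvPolynomial σ k}
    {e : ℕ} (hxe : x.IsHomogeneous e) (he : 0 < e) (hx : NZD J x)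
    (hy : NZD (J ⊔ Ideal.span {x}) y) : NZD J y := by
  intro a ha
  refine hJ.mem_of_forall_pow hxe he (fun n => ?_)
  obtain ⟨b, hb, _⟩ := NZD.mem_pow hx hy ha n
  exact ⟨b, hb⟩

/-- a homogeneous element of positive degree. -/
def PH (f : MvPolynomial σ k) : Prop := ∃ e, 0 < e ∧ f.IsHomogeneous e

theorem RegSeq.perm {l m : List (MvPolynomial σ k)} (h : l.Perm m) :
    ∀ J : Ideal (MvPolynomial σ k), HomI J → (∀ f ∈ l, PH f) → RegSeq J l → RegSeq J m := by
  induction h with
  | nil => intro J _ _ h; exact h
  | cons x hp ih =>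
    intro J hJ hl h
    obtain ⟨e, he, hx⟩ := hl x (by simp)
    exact ⟨h.1, ih _ (hJ.sup (HomI.single hx)) (fun f hf => hl f (by simp [hf])) h.2⟩
  | swap x y l =>
    intro J hJ hl h
    obtain ⟨e, he, hy⟩ := hl y (by simp)
    obtain ⟨h1, h2, h3⟩ := h
    refine ⟨NZD.swap_left hJ hy he h1 h2, NZD.swap_right h1 h2, ?_⟩
    rw [sup_assoc, sup_comm (Ideal.span {x}), ← sup_assoc]
    exact h3
  | trans h1 _ ih1 ih2 =>
    intro J hJ hl h
    exact ih2 J hJ (fun f hf => hl f (h1.mem_iff.mpr hf)) (ih1 J hJ hl h)

end Poly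

section Vars

variable {σ : Type*} {k : Type*} [CommRing k]

theorem NZD_X (s : Set σ) (j : σ) (hj : j ∉ s) :
    NZD (Ideal.span ((X : σ → MvPolynomial σ k) '' s)) (X j) := by
  classical
  intro a ha
  rw [mem_ideal_span_X_image] at ha ⊢
  intro m hm
  have hm' : m + Finsupp.single j 1 ∈ (X j * a).support := by
    rw [mem_support_iff] at hm ⊢
    rw [mul_comm, coeff_mul_X]
    exact hm
  obtain ⟨i, hi, hmi⟩ := ha _ hm'
  refine ⟨i, hi, ?_⟩
  have hij : j ≠ i := fun h => hj (h ▸ hi)
  simpa [Finsupp.single_apply, hij] using hmi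

theorem RegSeq_X (l : List σ) : ∀ s : Set σ, l.Nodup → (∀ i ∈ l, i ∉ s) →
    RegSeq (Ideal.span ((X : σ → MvPolynomial σ k) '' s)) (l.map X) := by
  induction l with
  | nil => intro s _ _; trivial
  | cons i l ih =>
    intro s hnd hs
    rw [List.nodup_cons] at hnd
    refine ⟨NZD_X s i (hs i (by simp)), ?_⟩
    have h1 : Ideal.span ((X : σ → MvPolynomial σ k) '' s) ⊔ Ideal.span {X i}
        = Ideal.span (X '' (insert i s)) := by
      rw [← Ideal.span_union, Set.image_insert_eq]
      congr 1
      ext y
      simp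
    rw [h1]
    apply ih _ hnd.2
    intro j hj hjs
    rcases Set.mem_insert_iff.mp hjs with h | h
    · exact hnd.1 (h ▸ hj)
    · exact hs j (by simp [hj]) h

end Vars

section Main

variable {k : Type*} [CommRing k] {N : ℕ}

/-- MAIN: triangular certificate. -/
theorem regSeq_of_cert (f : Fin N → MvPolynomial (Fin N) k) (hf : ∀ i, PH (f i))
    (cert : ∀ j : Fin N, (X j : MvPolynomial (Fin N) k) ∈
      (Ideal.span (f '' {i | i ≤ j}) ⊔ Ideal.span (X '' {i | j < i})).radical) :
    RegSeq ⊥ (List.ofFn f) := by
  classical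
  have hX : ∀ i : Fin N, PH (X i : MvPolynomial (Fin N) k) := fun i => ⟨1, by norm_num, isHomogeneous_X _ _⟩
  have key : ∀ j : ℕ, j ≤ N → RegSeq (⊥ : Ideal (MvPolynomial (Fin N) k))
      ((List.ofFn (fun i : Fin N => (X i : MvPolynomial (Fin N) k))).drop j
        ++ (List.ofFn f).take j) := by
    intro j
    induction j with
    | zero =>
      intro _
      have h0 := RegSeq_X (k := k) (List.finRange N) (∅ : Set (Fin N)) (List.nodup_finRange N)
        (by simp)
      rw [Set.image_empty, Ideal.span_empty] at h0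
      rw [List.ofFn_eq_map]
      simpa using h0
    | succ j ih =>
      intro hj
      have hj' : j < N := hj
      have h0 := ih (by omega)
      set A := (List.ofFn (fun i : Fin N => (X i : MvPolynomial (Fin N) k))).drop (j + 1)
        ++ (List.ofFn f).take j with hA
      have hdrop : (List.ofFn (fun i : Fin N => (X i : MvPolynomial (Fin N) k))).drop j
          = X ⟨j, hj'⟩ :: (List.ofFn (fun i : Fin N => (X i : MvPolynomial (Fin N) k))).drop (j + 1) := by
        rw [List.drop_eq_getElem_cons (by simpa using hj')]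
        simp
      have htake : (List.ofFn f).take (j + 1) = (List.ofFn f).take j ++ [f ⟨j, hj'⟩] := by
        rw [List.take_add_one]
        simp [hj']
      have hmemA : ∀ g ∈ A, PH g := by
        intro g hg
        rw [hA, List.mem_append] at hg
        rcases hg with hg | hg
        · have := List.mem_of_mem_drop hg
          rw [List.mem_ofFn] at this
          obtain ⟨i, rfl⟩ := this
          exact hX i
        · have := List.mem_of_mem_take hg
          rw [List.mem_ofFn] at this
          obtain ⟨i, rfl⟩ := this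
          exact hf i
      have hperm : ((List.ofFn (fun i : Fin N => (X i : MvPolynomial (Fin N) k))).drop j
          ++ (List.ofFn f).take j).Perm (A ++ [X ⟨j, hj'⟩]) := by
        rw [hdrop, List.cons_append]
        exact (List.perm_append_singleton _ _).symm
      have h1 := RegSeq.perm hperm ⊥ HomI.bot (by
        intro g hg
        have := hperm.mem_iff.mp hg
        rw [List.mem_append] at this
        rcases this with h | h
        · exact hmemA g h
        · rw [List.mem_singleton] at h; rw [h]; exact hX _) h0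
      rw [RegSeq_append] at h1
      obtain ⟨hreg, hlast, _⟩ := h1
      rw [htake, ← List.append_assoc, ← hA, RegSeq_append]
      refine ⟨hreg, ?_, trivial⟩
      rw [bot_sup_eq] at hlast ⊢
      obtain ⟨n, hn⟩ := cert ⟨j, hj'⟩
      apply hlast.exchange (n := n)
      refine (sup_le ?_ ?_ : Ideal.span (f '' {i | i ≤ (⟨j, hj'⟩ : Fin N)}) ⊔
        Ideal.span (X '' {i | (⟨j, hj'⟩ : Fin N) < i}) ≤ _) hn
      · rw [Ideal.span_le]
        rintro _ ⟨i, hi, rfl⟩
        rcases eq_or_lt_of_le (show i ≤ ⟨j, hj'⟩ from hi) with h | h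
        · subst h
          exact Ideal.mem_sup_right (Ideal.mem_span_singleton_self _)
        · apply Ideal.mem_sup_left
          apply Ideal.subset_span
          show f i ∈ A
          rw [hA, List.mem_append]
          right
          rw [List.mem_take_iff_getElem]
          refine ⟨i.1, ?_, ?_⟩
          · have : i.1 < j := h
            simp
            omega
          · simp
      · rw [Ideal.span_le]
        rintro _ ⟨i, hi, rfl⟩
        apply Ideal.mem_sup_left
        apply Ideal.subset_span
        show X i ∈ A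
        rw [hA, List.mem_append]
        left
        rw [List.mem_drop_iff_getElem]
        have h : j < i.1 := hi
        refine ⟨i.1 - (j + 1), ?_, ?_⟩
        · simp
          omega
        · simp
          congr 1
          ext
          simp
          omega
  have := key N le_rfl
  rw [List.drop_of_length_le (by simp), List.take_of_length_le (by simp)] at this
  simpa using this

end Main

end Pool.Agent.Helper28.FolReg
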