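import Pool.Agent.Helper28.FolReg.Two

set_option autoImplicit false

/-!
`Good` for `θ = r_0 φ_1 ∧ φ_2 + r_1 φ_2 ∧ φ_0 + r_2 φ_0 ∧ φ_1`.
With `φ_i ∈ S³` the `i`-th column, `θ_ij = det (r, φ_i, φ_j)`, `Ξ(e)_i = det (r, e, φ_i)`.
-/

namespace Pool.Agent.Helper28.FolReg

open Pool.Agent.Helper71.FL (Reg4 w12 ct AnnI Good Dec pf)

section three
variable {S : Type} [CommRing S] {ι : Type}

/-- determinant of three vectors of `S³`. -/
def det3 (x y z : Fin 3 → S) : S :=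
  x 0 * (y 1 * z 2 - y 2 * z 1) + x 1 * (y 2 * z 0 - y 0 * z 2) + x 2 * (y 0 * z 1 - y 1 * z 0)

/-- `θ_ij = det (r, φ_i, φ_j)`; `φ i` is the column of the three coefficients of `dx_i`. -/
def th3 (r : Fin 3 → S) (φ : ι → Fin 3 → S) (i j : ι) : S := det3 r (φ i) (φ j)

/-- the annihilated 1-forms. -/
def xi3 (r : Fin 3 → S) (φ : ι → Fin 3 → S) (e : Fin 3 → S) (i : ι) : S := det3 r e (φ i)

theorem w12_xi3 (r : Fin 3 → S) (φ : ι → Fin 3 → S) (e : Fin 3 → S) (i j k : ι) :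
    w12 (xi3 r φ e) (th3 r φ) i j k = 0 := by
  unfold w12 xi3 th3 det3; ring

theorem forall3 {P : Fin 3 → Prop} (h0 : P 0) (h1 : P 1) (h2 : P 2) : ∀ m, P m := by
  intro m
  fin_cases m
  · exact h0
  · exact h1
  · exact h2

/-- Cramer in `S³`. -/
theorem cramer3 (x y z u : Fin 3 → S) : ∀ m : Fin 3,
    det3 x y z * u m = det3 u y z * x m + det3 x u z * y m + det3 x y u * z m := by
  refine forall3 ?_ ?_ ?_ <;> (simp only [det3]; ring)

theorem indep_three {φ : ι → Fin 3 → S} {i j k : ι}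
    (h : ∀ a, det3 (φ i) (φ j) (φ k) * a = 0 → a = 0) {c : Fin 3 → S}
    (hc : ∀ l, c 0 * φ l 0 + c 1 * φ l 1 + c 2 * φ l 2 = 0) : ∀ m, c m = 0 := by
  have e1 := hc i
  have e2 := hc j
  have e3 := hc k
  refine forall3 ?_ ?_ ?_ <;> apply h
  · simp only [det3]
    linear_combination (φ j 1 * φ k 2 - φ j 2 * φ k 1) * e1
      + (φ k 1 * φ i 2 - φ k 2 * φ i 1) * e2 + (φ i 1 * φ j 2 - φ i 2 * φ j 1) * e3
  · simp only [det3]
    linear_combination (φ j 2 * φ k 0 - φ j 0 * φ k 2) * e1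
      + (φ k 2 * φ i 0 - φ k 0 * φ i 2) * e2 + (φ i 2 * φ j 0 - φ i 0 * φ j 2) * e3
  · simp only [det3]
    linear_combination (φ j 0 * φ k 1 - φ j 1 * φ k 0) * e1
      + (φ k 0 * φ i 1 - φ k 1 * φ i 0) * e2 + (φ i 0 * φ j 1 - φ i 1 * φ j 0) * e3

theorem exact_three {r : Fin 3 → S} {φ : ι → Fin 3 → S} {i j k i' j' k' : ι}
    (h : Reg2 (det3 (φ i) (φ j) (φ k)) (det3 (φ i') (φ j') (φ k')))
    (hr : Reg3 (r 0) (r 1) (r 2))
    (ξ : ι → S) (hξ : ∀ i j k, w12 ξ (th3 r φ) i j k = 0) :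
    ∃ e : Fin 3 → S, ξ = xi3 r φ e := by
  -- the coefficient of ξ ∧ φ_0 ∧ φ_1 ∧ φ_2 vanishes
  have hD : ∀ a b c l : ι, det3 (φ a) (φ b) (φ c) * ξ l =
      ξ a * det3 (φ b) (φ c) (φ l) + ξ b * det3 (φ c) (φ a) (φ l)
        + ξ c * det3 (φ a) (φ b) (φ l) := by
    intro a b c l
    have h1 := hξ a b c
    have h2 := hξ b c l
    have h3 := hξ c a l
    have h4 := hξ a b l
    unfold w12 th3 at h1 h2 h3 h4
    have : r 0 * (det3 (φ a) (φ b) (φ c) * ξ l - (ξ a * det3 (φ b) (φ c) (φ l)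
        + ξ b * det3 (φ c) (φ a) (φ l) + ξ c * det3 (φ a) (φ b) (φ l))) = 0 := by
      simp only [det3] at h1 h2 h3 h4 ⊢
      linear_combination (φ a 0) * h2 + (φ b 0) * h3 + (φ c 0) * h4 - (φ l 0) * h1
    have := hr.1 _ this
    linear_combination this
  set m := det3 (φ i) (φ j) (φ k) with hm
  set m' := det3 (φ i') (φ j') (φ k') with hm'
  -- m ξ_l = C · φ_l
  let cr : (ι × ι × ι) → Fin 3 → S := fun t =>
    ![ξ t.1 * (φ t.2.1 1 * φ t.2.2 2 - φ t.2.1 2 * φ t.2.2 1)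
        + ξ t.2.1 * (φ t.2.2 1 * φ t.1 2 - φ t.2.2 2 * φ t.1 1)
        + ξ t.2.2 * (φ t.1 1 * φ t.2.1 2 - φ t.1 2 * φ t.2.1 1),
      ξ t.1 * (φ t.2.1 2 * φ t.2.2 0 - φ t.2.1 0 * φ t.2.2 2)
        + ξ t.2.1 * (φ t.2.2 2 * φ t.1 0 - φ t.2.2 0 * φ t.1 2)
        + ξ t.2.2 * (φ t.1 2 * φ t.2.1 0 - φ t.1 0 * φ t.2.1 2),
      ξ t.1 * (φ t.2.1 0 * φ t.2.2 1 - φ t.2.1 1 * φ t.2.2 0)
        + ξ t.2.1 * (φ t.2.2 0 * φ t.1 1 - φ t.2.2 1 * φ t.1 0)
        + ξ t.2.2 * (φ t.1 0 * φ t.2.1 1 - φ t.1 1 * φ t.2.1 0)]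
  have hC : ∀ (a b c l : ι), det3 (φ a) (φ b) (φ c) * ξ l =
      cr (a, b, c) 0 * φ l 0 + cr (a, b, c) 1 * φ l 1 + cr (a, b, c) 2 * φ l 2 := by
    intro a b c l
    rw [hD a b c l]
    simp only [cr, det3, Matrix.cons_val_zero, Matrix.cons_val_one, Matrix.cons_val]
    ring
  set A := cr (i, j, k) with hA
  set A' := cr (i', j', k') with hA'
  have hAA : ∀ n, m' * A n - m * A' n = 0 := by
    apply indep_three (c := fun n => m' * A n - m * A' n) h.1
    intro l
    have e1 := hC i j k l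
    have e2 := hC i' j' k' l
    rw [← hm, ← hA] at e1
    rw [← hm', ← hA'] at e2
    linear_combination m * e2 - m' * e1
  have hdiv : ∀ n, ∃ c, A n = m * c := by
    intro n
    obtain ⟨c, hc, _⟩ := h.dvd_mul (a := A n) (b := A' n) (by linear_combination hAA n)
    exact ⟨c, hc⟩
  choose c hc using hdiv
  have hξc : ∀ l, ξ l = c 0 * φ l 0 + c 1 * φ l 1 + c 2 * φ l 2 := by
    intro l
    have e1 := hC i j k l
    rw [← hm, ← hA, hc 0, hc 1, hc 2] at e1
    have : m * (ξ l - (c 0 * φ l 0 + c 1 * φ l 1 + c 2 * φ l 2)) = 0 := by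
      linear_combination e1
    have := h.1 _ this
    linear_combination this
  have hcr : r 0 * c 0 + r 1 * c 1 + r 2 * c 2 = 0 := by
    apply h.1
    have h1 := hξ i j k
    unfold w12 th3 at h1
    rw [hξc i, hξc j, hξc k] at h1
    rw [hm]
    simp only [det3] at h1 ⊢
    linear_combination h1
  obtain ⟨c01, c02, c12, e0, e1, e2⟩ := hr.syz hcr
  refine ⟨![c12, -c02, c01], ?_⟩
  funext l
  rw [hξc l, e0, e1, e2]
  simp only [xi3, det3, Matrix.cons_val_zero, Matrix.cons_val_one, Matrix.cons_val]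
  ring

theorem ker_three {r : Fin 3 → S} {φ : ι → Fin 3 → S} {i j k : ι}
    (h : ∀ a, det3 (φ i) (φ j) (φ k) * a = 0 → a = 0)
    (hr : Reg2 (r 0) (r 1)) {e : Fin 3 → S} (he : ∀ l, xi3 r φ e l = 0) :
    ∃ f, ∀ n, e n = f * r n := by
  have h1 : ∀ n : Fin 3, (![r 1 * e 2 - r 2 * e 1, r 2 * e 0 - r 0 * e 2,
      r 0 * e 1 - r 1 * e 0] : Fin 3 → S) n = 0 := by
    apply indep_three h
    intro l
    have := he l
    simp only [xi3, det3] at this
    simp only [Matrix.cons_val_zero, Matrix.cons_val_one, Matrix.cons_val]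
    linear_combination this
  have h2 := h1 0
  have h3 := h1 1
  have h4 := h1 2
  simp only [Matrix.cons_val_zero, Matrix.cons_val_one, Matrix.cons_val] at h2 h3 h4
  obtain ⟨f, hf0, hf1⟩ := hr.dvd_mul (a := e 0) (b := e 1) (by linear_combination -h4)
  refine ⟨f, ?_⟩
  intro n
  fin_cases n
  · show e 0 = f * r 0
    rw [hf0]; ring
  · show e 1 = f * r 1
    rw [hf1]; ring
  · show e 2 = f * r 2
    have : r 0 * (e 2 - f * r 2) = 0 := by
      rw [hf0] at h3
      linear_combination -h3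
    have := hr.1 _ this
    linear_combination this

variable [Fintype ι]

theorem ct_th3 (r : Fin 3 → S) (φ : ι → Fin 3 → S) (w : ι → S) (l : ι) :
    ct w (th3 r φ) l = xi3 r φ (fun n => ∑ i, w i * φ i n) l := by
  unfold ct th3 xi3 det3
  simp only [Finset.sum_mul, Finset.mul_sum, ← Finset.sum_add_distrib, ← Finset.sum_sub_distrib]
  exact Finset.sum_congr rfl (fun i _ => by ring)

theorem sum_three [DecidableEq ι] (i j k : ι) (a b c : S) (φ : ι → Fin 3 → S) (n : Fin 3) :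
    ∑ l, ((if l = i then a else 0) + (if l = j then b else 0) + (if l = k then c else 0)) * φ l n
      = a * φ i n + b * φ j n + c * φ k n := by
  simp only [add_mul, ite_mul, zero_mul, Finset.sum_add_distrib, Finset.sum_ite_eq',
    Finset.mem_univ, if_true]

/-- the 3x3 minors of `φ` annihilate. -/
theorem annI_det3 {r : Fin 3 → S} {φ : ι → Fin 3 → S} {i j k i' j' k' : ι}
    (h : Reg2 (det3 (φ i) (φ j) (φ k)) (det3 (φ i') (φ j') (φ k')))
    (hr : Reg3 (r 0) (r 1) (r 2)) (a b c : ι) :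
    AnnI (th3 r φ) (det3 (φ a) (φ b) (φ c)) := by
  classical
  intro ξ hξ
  obtain ⟨e, rfl⟩ := exact_three h hr ξ hξ
  refine ⟨1, fun l => (if l = a then det3 e (φ b) (φ c) else 0)
    + (if l = b then det3 (φ a) e (φ c) else 0)
    + (if l = c then det3 (φ a) (φ b) e else 0), fun l => ?_⟩
  rw [ct_th3]
  have h1 : (fun n => ∑ i, ((if i = a then det3 e (φ b) (φ c) else 0)
      + (if i = b then det3 (φ a) e (φ c) else 0)
      + (if i = c then det3 (φ a) (φ b) e else 0)) * φ i n)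
      = fun n => det3 (φ a) (φ b) (φ c) * e n := by
    funext n
    rw [sum_three, cramer3 (φ a) (φ b) (φ c) e n]
  rw [h1]
  unfold xi3 det3
  ring

/-- the coefficients of `θ` annihilate. -/
theorem annI_th3 {r : Fin 3 → S} {φ : ι → Fin 3 → S} {i j k i' j' k' : ι}
    (h : Reg2 (det3 (φ i) (φ j) (φ k)) (det3 (φ i') (φ j') (φ k')))
    (hr : Reg3 (r 0) (r 1) (r 2)) (a b : ι) :
    AnnI (th3 r φ) (det3 r (φ a) (φ b)) := by
  classical
  intro ξ hξ
  obtain ⟨e, rfl⟩ := exact_three h hr ξ hξ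
  refine ⟨1, fun l => (if l = a then det3 r e (φ b) else 0)
    + (if l = b then det3 r (φ a) e else 0)
    + (if l = b then 0 else 0), fun l => ?_⟩
  rw [ct_th3]
  have h1 : (fun n => ∑ i, ((if i = a then det3 r e (φ b) else 0)
      + (if i = b then det3 r (φ a) e else 0)
      + (if i = b then 0 else 0)) * φ i n)
      = fun n => det3 r (φ a) (φ b) * e n - det3 e (φ a) (φ b) * r n := by
    funext n
    rw [sum_three]
    have := cramer3 r (φ a) (φ b) e n
    linear_combination -this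
  rw [h1]
  unfold xi3 det3
  ring

/-- `Good` for the three-generator forms. -/
theorem good_three {r : Fin 3 → S} {φ : ι → Fin 3 → S} {i j k i' j' k' : ι}
    (h : Reg2 (det3 (φ i) (φ j) (φ k)) (det3 (φ i') (φ j') (φ k')))
    (hr : Reg3 (r 0) (r 1) (r 2)) {g0 g1 g2 : S} (a : Fin 3 → S)
    (hg0 : AnnI (th3 r φ) g0) (hg1 : AnnI (th3 r φ) g1) (hg2 : AnnI (th3 r φ) g2)
    (hreg : ∀ n, 0 < n → Reg4 (g0 ^ n) (g1 ^ n) (g2 ^ n)
      (a 0 * r 0 + a 1 * r 1 + a 2 * r 2)) : Good (th3 r φ) := by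
  let Xi : (Fin 3 → S) →ₗ[S] (ι → S) :=
    { toFun := fun e => xi3 r φ e
      map_add' := by
        intro x y; funext l
        simp only [xi3, det3, Pi.add_apply]; ring
      map_smul' := by
        intro c x; funext l
        simp only [xi3, det3, Pi.smul_apply, smul_eq_mul, RingHom.id_apply]; ring }
  let M : (Fin 1 → S) →ₗ[S] (Fin 3 → S) :=
    { toFun := fun f n => f 0 * r n
      map_add' := by
        intro x y; funext l
        simp only [Pi.add_apply]; ring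
      map_smul' := by
        intro c x; funext l
        simp only [Pi.smul_apply, smul_eq_mul, RingHom.id_apply]; ring }
  let adj : (Fin 3 → S) →ₗ[S] (Fin 1 → S) :=
    { toFun := fun e _ => a 0 * e 0 + a 1 * e 1 + a 2 * e 2
      map_add' := by
        intro x y; funext l
        simp only [Pi.add_apply]; ring
      map_smul' := by
        intro c x; funext l
        simp only [Pi.smul_apply, smul_eq_mul, RingHom.id_apply]; ring }
  refine Pool.Agent.Helper71.FL.good_of_cech (p := Fin 3) (q := Fin 1) (th3 r φ) Xi M adj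
    g0 g1 g2 (a 0 * r 0 + a 1 * r 1 + a 2 * r 2) ?_ ?_ ?_ hg0 hg1 hg2 hreg
  · intro ξ
    constructor
    · intro hξ
      obtain ⟨e, he⟩ := exact_three h hr ξ hξ
      exact ⟨e, he.symm⟩
    · rintro ⟨e, rfl⟩ i j k
      exact w12_xi3 r φ e i j k
  · intro e
    constructor
    · intro he
      obtain ⟨f, hf⟩ := ker_three h.1 (reg2_of_reg3 hr) (e := e) (fun l => congrFun he l)
      exact ⟨fun _ => f, by funext n; exact (hf n).symm⟩
    · rintro ⟨f, rfl⟩
      funext l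
      show xi3 r φ (fun n => f 0 * r n) l = 0
      unfold xi3 det3
      ring
  · intro f
    funext m
    have hm : m = 0 := Subsingleton.elim _ _
    subst hm
    show a 0 * (f 0 * r 0) + a 1 * (f 0 * r 1) + a 2 * (f 0 * r 2)
      = (a 0 * r 0 + a 1 * r 1 + a 2 * r 2) • f 0
    rw [smul_eq_mul]
    ring

end three

end Pool.Agent.Helper28.FolReg
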