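import Pool.Agent.Helper28.FolReg.Open

set_option autoImplicit false

/-!
`Good` for the 2-forms `α ∧ β` (free module of annihilated 1-forms).
-/

namespace Pool.Agent.Helper28.FolReg

open Pool.Agent.Helper71.FL (Reg4 w12 ct AnnI Good Dec pf)

section ann
variable {S : Type} [CommRing S] {ι : Type} [Fintype ι]

theorem annI_mul {θ : ι → ι → S} {f : S} (h : AnnI θ f) (g : S) : AnnI θ (g * f) := by
  intro ξ hξ
  obtain ⟨K, w, hw⟩ := h ξ hξ
  refine ⟨K, fun i => g ^ K * w i, fun j => ?_⟩
  have h1 : ct (fun i => g ^ K * w i) θ j = g ^ K * ct w θ j := by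
    unfold ct
    rw [Finset.mul_sum]
    exact Finset.sum_congr rfl (fun i _ => by ring)
  rw [h1, ← hw j, mul_pow]
  ring

theorem annI_pow {θ : ι → ι → S} {f : S} (h : AnnI θ f) {n : ℕ} (hn : 0 < n) :
    AnnI θ (f ^ n) := by
  obtain ⟨m, rfl⟩ : ∃ m, n = m + 1 := ⟨n - 1, by omega⟩
  rw [pow_succ]
  exact annI_mul h _

theorem annI_add {θ : ι → ι → S} {f g : S} (hf : AnnI θ f) (hg : AnnI θ g) : AnnI θ (f + g) := by
  intro ξ hξ
  obtain ⟨K, w, hw⟩ := hf ξ hξ
  obtain ⟨L, v, hv⟩ := hg ξ hξ
  have hmem : (f + g) ^ (K + L) ∈ Ideal.span {f ^ K, g ^ L} := by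
    rw [add_pow]
    refine Ideal.sum_mem _ (fun i _ => ?_)
    by_cases hi : K ≤ i
    · obtain ⟨t, rfl⟩ := Nat.exists_eq_add_of_le hi
      have : f ^ (K + t) * g ^ (K + L - (K + t)) * ((K + L).choose (K + t) : S)
          = (f ^ t * g ^ (K + L - (K + t)) * ((K + L).choose (K + t) : S)) * f ^ K := by ring
      rw [this]
      exact Ideal.mul_mem_left _ _ (Ideal.subset_span (by simp))
    · obtain ⟨t, ht⟩ := Nat.exists_eq_add_of_le (show L ≤ K + L - i by omega)
      rw [ht]
      have : f ^ i * g ^ (L + t) * ((K + L).choose i : S)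
          = (f ^ i * g ^ t * ((K + L).choose i : S)) * g ^ L := by ring
      rw [this]
      exact Ideal.mul_mem_left _ _ (Ideal.subset_span (by simp))
  obtain ⟨a, b, hab⟩ := Ideal.mem_span_pair.mp hmem
  refine ⟨K + L, fun i => a * w i + b * v i, fun j => ?_⟩
  have h1 : ct (fun i => a * w i + b * v i) θ j = a * ct w θ j + b * ct v θ j := by
    unfold ct
    rw [Finset.mul_sum, Finset.mul_sum, ← Finset.sum_add_distrib]
    exact Finset.sum_congr rfl (fun i _ => by ring)
  rw [h1, ← hw j, ← hv j, ← hab]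
  ring

end ann

section two
variable {S : Type} [CommRing S] {ι : Type}

/-- `α ∧ β`, also its coefficients, the 2x2 minors. -/
def mn (α β : ι → S) (i j : ι) : S := α i * β j - α j * β i

theorem w12_mn_left (α β : ι → S) (a b : S) (i j k : ι) :
    w12 (fun l => a * α l + b * β l) (mn α β) i j k = 0 := by
  unfold w12 mn; ring

/-- exactness: forms annihilated by `α ∧ β`. -/
theorem exact_two {α β : ι → S} {i j i' j' : ι} (h : Reg2 (mn α β i j) (mn α β i' j'))
    (ξ : ι → S) (hξ : ∀ i j k, w12 ξ (mn α β) i j k = 0) :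
    ∃ a b : S, ξ = fun l => a * α l + b * β l := by
  set M := mn α β i j with hM
  set M' := mn α β i' j' with hM'
  have hk : ∀ k, M * ξ k = (ξ i * β j - ξ j * β i) * α k + (α i * ξ j - α j * ξ i) * β k := by
    intro k
    have := hξ i j k
    unfold w12 at this
    rw [hM]
    unfold mn at this ⊢
    linear_combination this
  have hk' : ∀ k, M' * ξ k = (ξ i' * β j' - ξ j' * β i') * α k
      + (α i' * ξ j' - α j' * ξ i') * β k := by
    intro k
    have := hξ i' j' k
    unfold w12 at this
    rw [hM']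
    unfold mn at this ⊢
    linear_combination this
  set A := ξ i * β j - ξ j * β i with hA
  set B := α i * ξ j - α j * ξ i with hB
  set A' := ξ i' * β j' - ξ j' * β i' with hA'
  set B' := α i' * ξ j' - α j' * ξ i' with hB'
  have hcomb : ∀ k, (M' * A - M * A') * α k + (M' * B - M * B') * β k = 0 := by
    intro k
    have e1 := hk k
    have e2 := hk' k
    linear_combination M * e2 - M' * e1
  have hz : ∀ a b : S, (∀ k, a * α k + b * β k = 0) → a = 0 ∧ b = 0 := by
    intro a b hab
    have e1 := hab i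
    have e2 := hab j
    constructor
    · apply h.1
      rw [hM]; unfold mn
      linear_combination β j * e1 - β i * e2
    · apply h.1
      rw [hM]; unfold mn
      linear_combination α i * e2 - α j * e1
  obtain ⟨h1, h2⟩ := hz _ _ hcomb
  obtain ⟨a, ha, ha'⟩ := h.dvd_mul (a := A) (b := A') (by linear_combination h1)
  obtain ⟨b, hb, hb'⟩ := h.dvd_mul (a := B) (b := B') (by linear_combination h2)
  refine ⟨a, b, ?_⟩
  funext k
  have e := hk k
  rw [ha, hb] at e
  have : M * (ξ k - (a * α k + b * β k)) = 0 := by linear_combination e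
  have := h.1 _ this
  linear_combination this

theorem indep_two {α β : ι → S} {i j : ι} (h : ∀ a, mn α β i j * a = 0 → a = 0) {a b : S}
    (hab : ∀ k, a * α k + b * β k = 0) : a = 0 ∧ b = 0 := by
  have e1 := hab i
  have e2 := hab j
  constructor
  · apply h
    unfold mn
    linear_combination β j * e1 - β i * e2
  · apply h
    unfold mn
    linear_combination α i * e2 - α j * e1

variable [Fintype ι]

theorem annI_mn {α β : ι → S} {i j i' j' : ι} (h : Reg2 (mn α β i j) (mn α β i' j'))
    (p q : ι) : AnnI (mn α β) (mn α β p q) := by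
  classical
  intro ξ hξ
  obtain ⟨a, b, rfl⟩ := exact_two h ξ hξ
  refine ⟨1, fun l => (if l = p then b * β q + a * α q else 0)
    + (if l = q then -(b * β p + a * α p) else 0), fun m => ?_⟩
  have h1 : ct (fun l => (if l = p then b * β q + a * α q else 0)
      + (if l = q then -(b * β p + a * α p) else 0)) (mn α β) m
      = (b * β q + a * α q) * mn α β p m + (-(b * β p + a * α p)) * mn α β q m := by
    unfold ct
    simp only [add_mul, ite_mul, zero_mul, Finset.sum_add_distrib, Finset.sum_ite_eq',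
      Finset.mem_univ, if_true]
  rw [h1]
  unfold mn
  ring

/-- `Good` for `α ∧ β`. -/
theorem good_two {α β : ι → S} {i j i' j' : ι} (h : Reg2 (mn α β i j) (mn α β i' j'))
    {g0 g1 g2 δ : S} (hg0 : AnnI (mn α β) g0) (hg1 : AnnI (mn α β) g1) (hg2 : AnnI (mn α β) g2)
    (hreg : ∀ k, 0 < k → Reg4 (g0 ^ k) (g1 ^ k) (g2 ^ k) δ) : Good (mn α β) := by
  let Xi : (Fin 2 → S) →ₗ[S] (ι → S) :=
    { toFun := fun e l => e 0 * α l + e 1 * β l
      map_add' := by intro x y; funext l; simp only [Pi.add_apply]; ring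
      map_smul' := by intro c x; funext l; simp only [Pi.smul_apply, smul_eq_mul, RingHom.id_apply]; ring }
  refine Pool.Agent.Helper71.FL.good_of_cech (p := Fin 2) (q := Fin 0) (mn α β) Xi 0 0 g0 g1 g2 δ
    ?_ ?_ ?_ hg0 hg1 hg2 hreg
  · intro ξ
    constructor
    · intro hξ
      obtain ⟨a, b, hab⟩ := exact_two h ξ hξ
      exact ⟨![a, b], by rw [hab]; funext l; simp [Xi]⟩
    · rintro ⟨e, rfl⟩ i j k
      exact w12_mn_left α β (e 0) (e 1) i j k
  · intro e
    constructor
    · intro he
      have h1 := indep_two h.1 (a := e 0) (b := e 1) (fun k => congrFun he k)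
      refine ⟨0, ?_⟩
      funext m
      fin_cases m
      · simpa using h1.1.symm
      · simpa using h1.2.symm
    · rintro ⟨f, rfl⟩
      simp
  · intro f
    funext m
    exact Fin.elim0 m

end two

end Pool.Agent.Helper28.FolReg
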